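import Mathlib
import Pool.Agent.Helper240.ZFM.Q5b

/-!
# Moments determine bounded functions on nowhere dense compact sets with connected complement
-/

set_option autoImplicit false

open Filter Topology Metric MeasureTheory

namespace Pool.Agent.X151.LF

theorem int_mul {K : Set ℂ} (hK : IsCompact K) {u : ℂ → ℂ} (hu : Integrable u)
    (hs : ∀ z, z ∉ K → u z = 0) {g : ℂ → ℂ} (hg : Continuous g) : Integrable (fun z => u z * g z) := by
  obtain ⟨B, hB⟩ := hK.exists_bound_of_continuousOn hg.continuousOn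
  refine (hu.norm.mul_const (max B 0)).mono' (hu.aestronglyMeasurable.mul hg.aestronglyMeasurable) ?_
  refine Eventually.of_forall fun z => ?_
  rw [norm_mul]
  by_cases hz : z ∈ K
  · exact mul_le_mul_of_nonneg_left ((hB z hz).trans (le_max_left _ _)) (norm_nonneg _)
  · rw [hs z hz]
    simp

theorem int_poly {K : Set ℂ} (hK : IsCompact K) {u : ℂ → ℂ} (hu : Integrable u)
    (hs : ∀ z, z ∉ K → u z = 0) (p : Polynomial ℂ) :
    ∫ z, u z * p.eval z = p.sum fun k a => a * ∫ z, u z * z ^ k := by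
  have e : (fun z => u z * p.eval z) = fun z => ∑ k ∈ p.support, p.coeff k * (u z * z ^ k) := by
    funext z
    rw [Polynomial.eval_eq_sum, Polynomial.sum, Finset.mul_sum]
    exact Finset.sum_congr rfl fun k _ => by ring
  rw [e, integral_finsetSum, Polynomial.sum]
  · exact Finset.sum_congr rfl fun k _ => integral_const_mul _ _
  · intro k _
    exact (int_mul hK hu hs (continuous_pow k)).const_mul _

theorem ae_zero {K : Set ℂ} (hK : IsCompact K) (hKc : IsConnected Kᶜ) (hint : interior K = ∅)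
    {u : ℂ → ℂ} (hu : Integrable u) (hs : ∀ z, z ∉ K → u z = 0)
    (hm : ∀ k : ℕ, ∫ z, u z * z ^ k = 0) : ∀ᵐ z, u z = 0 := by
  refine ae_eq_zero_of_integral_contDiff_smul_eq_zero hu.locallyIntegrable ?_
  intro g hg _
  have hgc : Continuous (fun z : ℂ => ((g z : ℝ) : ℂ)) := Complex.continuous_ofReal.comp hg.continuous
  have e : ∫ z, g z • u z = ∫ z, u z * ((g z : ℝ) : ℂ) := by
    refine integral_congr_ae (Eventually.of_forall fun z => ?_)
    simp only [Complex.real_smul]
    ring
  rw [e]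
  by_contra hne
  set A : ℝ := ∫ z, ‖u z‖ with hA
  have hA0 : 0 ≤ A := integral_nonneg fun z => norm_nonneg _
  have hpos : 0 < ‖∫ z, u z * ((g z : ℝ) : ℂ)‖ := norm_pos_iff.2 hne
  set ε : ℝ := ‖∫ z, u z * ((g z : ℝ) : ℂ)‖ / (2 * (A + 1)) with hε
  have hε0 : 0 < ε := by positivity
  obtain ⟨p, hp⟩ := ZFM.J_q5b.mergelyan hK hKc _ hgc.continuousOn (by
    rw [hint]
    exact differentiableOn_empty) ε hε0
  have h1 : ∫ z, u z * p.eval z = 0 := by
    rw [int_poly hK hu hs p, Polynomial.sum]
    exact Finset.sum_eq_zero fun k _ => by rw [hm k, mul_zero]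
  have h2 : ∫ z, u z * ((g z : ℝ) : ℂ) = ∫ z, u z * (((g z : ℝ) : ℂ) - p.eval z) := by
    have h3 := integral_sub (int_mul hK hu hs hgc) (int_mul hK hu hs p.continuous)
    rw [h1, sub_zero] at h3
    rw [← h3]
    exact integral_congr_ae (Eventually.of_forall fun z => by simp only []; ring)
  have h4 : ‖∫ z, u z * ((g z : ℝ) : ℂ)‖ ≤ ε * A := by
    rw [h2, hA, ← integral_const_mul]
    refine norm_integral_le_of_norm_le (hu.norm.const_mul ε) (Eventually.of_forall fun z => ?_)
    rw [norm_mul, mul_comm ε]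
    by_cases hz : z ∈ K
    · refine mul_le_mul_of_nonneg_left ?_ (norm_nonneg _)
      rw [norm_sub_rev]
      exact (hp z hz).le
    · rw [hs z hz]
      simp
  have h5 : ε * A < ‖∫ z, u z * ((g z : ℝ) : ℂ)‖ := by
    rw [hε, div_mul_eq_mul_div, div_lt_iff₀ (by positivity)]
    nlinarith
  linarith

end Pool.Agent.X151.LF
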