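import Mathlib

/-!
# Representing linear functionals on polynomials that are bounded in `L¹(K)`
-/

set_option autoImplicit false

open Filter Topology Metric MeasureTheory Set
open scoped ENNReal InnerProductSpace

namespace Pool.Agent.X151.LF

section Riesz

variable {X : Type*} [MeasurableSpace X] (ρ : Measure X) [IsFiniteMeasure ρ]

theorem memLp_down {h : X → ℂ} (hh : MemLp h 2 ρ) : MemLp h 1 ρ :=
  hh.mono_exponent (by norm_num)

/-- the inclusion of `L²` in `L¹` -/
noncomputable def incl : Lp ℂ 2 ρ →ₗ[ℂ] Lp ℂ 1 ρ where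
  toFun h := (memLp_down ρ (Lp.memLp h)).toLp h
  map_add' h₁ h₂ := by
    rw [← MemLp.toLp_add]
    exact MemLp.toLp_congr _ _ (Lp.coeFn_add h₁ h₂)
  map_smul' a h := by
    rw [RingHom.id_apply, ← MemLp.toLp_const_smul]
    exact MemLp.toLp_congr _ _ (Lp.coeFn_smul a h)

theorem incl_toLp {h : X → ℂ} (hh : MemLp h 2 ρ) :
    incl ρ (hh.toLp h) = (memLp_down ρ hh).toLp h :=
  MemLp.toLp_congr (memLp_down ρ (Lp.memLp (hh.toLp h))) (memLp_down ρ hh) (MemLp.coeFn_toLp hh)

omit [IsFiniteMeasure ρ] in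
theorem norm_toLp_one {h : X → ℂ} (hh : MemLp h 1 ρ) : ‖hh.toLp h‖ = ∫ x, ‖h x‖ ∂ρ := by
  have := L1.norm_of_fun_eq_integral_norm (memLp_one_iff_integrable.1 hh)
  rw [← this]
  rfl

theorem norm_incl (h : Lp ℂ 2 ρ) : ‖incl ρ h‖ ≤ (ρ univ ^ (1 / (2 : ℝ))).toReal * ‖h‖ := by
  have h1 : ‖incl ρ h‖ = (eLpNorm h 1 ρ).toReal := by
    exact Lp.norm_toLp _ (memLp_down ρ (Lp.memLp h))
  have h2 : ‖h‖ = (eLpNorm h 2 ρ).toReal := Lp.norm_def h
  rw [h1, h2, ← ENNReal.toReal_mul]
  have h3 := eLpNorm_le_eLpNorm_mul_rpow_measure_univ (μ := ρ) (p := 1) (q := 2) (by norm_num)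
    (Lp.aestronglyMeasurable h)
  refine ENNReal.toReal_mono ?_ ?_
  · refine ENNReal.mul_ne_top ?_ (Lp.eLpNorm_ne_top h)
    exact ENNReal.rpow_ne_top_of_nonneg (by norm_num) (measure_ne_top ρ univ)
  · rw [mul_comm]
    refine h3.trans (le_of_eq ?_)
    norm_num

theorem riesz_one (g : Lp ℂ 1 ρ →L[ℂ] ℂ) {C : ℝ} (hC : ‖g‖ ≤ C) :
    ∃ m : X → ℂ, Measurable m ∧ (∀ x, ‖m x‖ ≤ C) ∧
      ∀ (h : X → ℂ) (hh : MemLp h 2 ρ), g ((memLp_down ρ hh).toLp h) = ∫ x, m x * h x ∂ρ := by
  have hC0 : 0 ≤ C := (norm_nonneg g).trans hC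
  set J : Lp ℂ 2 ρ →L[ℂ] Lp ℂ 1 ρ := (incl ρ).mkContinuous _ (norm_incl ρ) with hJ
  set k : Lp ℂ 2 ρ := (InnerProductSpace.toDual ℂ (Lp ℂ 2 ρ)).symm (g.comp J) with hk
  have hrep : ∀ (h : X → ℂ) (hh : MemLp h 2 ρ),
      g ((memLp_down ρ hh).toLp h) = ∫ x, (starRingEnd ℂ) (k x) * h x ∂ρ := by
    intro h hh
    have h1 : ⟪k, hh.toLp h⟫_ℂ = g (J (hh.toLp h)) := by
      rw [hk, InnerProductSpace.toDual_symm_apply]
      rfl
    have h2 : J (hh.toLp h) = (memLp_down ρ hh).toLp h := incl_toLp ρ hh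
    rw [h2, L2.inner_def] at h1
    rw [← h1]
    refine integral_congr_ae ?_
    filter_upwards [MemLp.coeFn_toLp hh] with x hx
    rw [hx, RCLike.inner_apply, mul_comm]
  have hkm : Measurable (k : X → ℂ) := (Lp.stronglyMeasurable k).measurable
  set A : Set X := {x | C < ‖k x‖} with hA
  have hAm : MeasurableSet A := measurableSet_lt measurable_const hkm.norm
  -- the set where the representing function is too large is null
  have hnull : ρ A = 0 := by
    set h : X → ℂ := A.indicator fun x => k x / (‖k x‖ : ℂ) with hh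
    have hhm : Measurable h := by
      refine Measurable.indicator ?_ hAm
      exact hkm.div (Complex.measurable_ofReal.comp hkm.norm)
    have hkint : Integrable (fun x => ‖k x‖) ρ :=
      (memLp_one_iff_integrable.1 (memLp_down ρ (Lp.memLp k))).norm
    have hb : ∀ x, ‖h x‖ ≤ 1 := by
      intro x
      rw [hh]
      by_cases hx : x ∈ A
      · rw [indicator_of_mem hx, norm_div, Complex.norm_real, norm_norm]
        exact div_self_le_one _
      · rw [indicator_of_notMem hx, norm_zero]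
        exact zero_le_one
    have hL : MemLp h 2 ρ := MemLp.of_bound hhm.aestronglyMeasurable 1 (Eventually.of_forall hb)
    have e1 : (fun x => (starRingEnd ℂ) (k x) * h x) = fun x => ((A.indicator (fun x => ‖k x‖) x : ℝ) : ℂ) := by
      funext x
      rw [hh]
      by_cases hx : x ∈ A
      · have hx0 : 0 < ‖k x‖ := hC0.trans_lt hx
        rw [indicator_of_mem hx, indicator_of_mem hx, mul_div_assoc', mul_comm,
          Complex.mul_conj, Complex.normSq_eq_norm_sq]
        push_cast
        have : ((‖k x‖ : ℝ) : ℂ) ≠ 0 := by exact_mod_cast hx0.ne'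
        field_simp
      · rw [indicator_of_notMem hx, indicator_of_notMem hx, mul_zero, Complex.ofReal_zero]
    have h1 : ‖g ((memLp_down ρ hL).toLp h)‖ = ∫ x in A, ‖k x‖ ∂ρ := by
      rw [hrep h hL, e1, integral_complex_ofReal, Complex.norm_real, integral_indicator hAm,
        Real.norm_of_nonneg (integral_nonneg fun x => norm_nonneg _)]
    have h2 : ‖g ((memLp_down ρ hL).toLp h)‖ ≤ C * ∫ x, ‖h x‖ ∂ρ := by
      rw [← norm_toLp_one ρ (memLp_down ρ hL)]
      exact (g.le_opNorm _).trans (mul_le_mul_of_nonneg_right hC (norm_nonneg _))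
    have h3 : ∫ x, ‖h x‖ ∂ρ ≤ ρ.real A := by
      have : ∫ x, ‖h x‖ ∂ρ ≤ ∫ x, A.indicator (fun _ => (1 : ℝ)) x ∂ρ := by
        refine integral_mono ?_ ?_ ?_
        · exact (memLp_one_iff_integrable.1 (memLp_down ρ hL)).norm
        · exact (integrable_const 1).indicator hAm
        · intro x
          beta_reduce
          by_cases hx : x ∈ A
          · rw [indicator_of_mem hx]
            exact hb x
          · rw [indicator_of_notMem hx, hh, indicator_of_notMem hx, norm_zero]
      rw [integral_indicator hAm, setIntegral_const, smul_eq_mul, mul_one] at this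
      exact this
    have h4 : ∫ x in A, (‖k x‖ - C) ∂ρ ≤ 0 := by
      rw [integral_sub hkint.integrableOn (integrable_const C), setIntegral_const, smul_eq_mul,
        ← h1]
      nlinarith [mul_le_mul_of_nonneg_left h3 hC0]
    by_contra hne
    have hpos : 0 < ∫ x in A, (‖k x‖ - C) ∂ρ := by
      rw [setIntegral_pos_iff_support_of_nonneg_ae]
      · refine lt_of_lt_of_le (pos_iff_ne_zero.2 hne) (measure_mono fun x hx => ⟨?_, hx⟩)
        rw [Function.mem_support]
        have : C < ‖k x‖ := hx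
        linarith
      · rw [EventuallyLE, ae_restrict_iff' hAm]
        refine Eventually.of_forall fun x hx => ?_
        have : C < ‖k x‖ := hx
        simp only [Pi.zero_apply]
        linarith
      · exact (hkint.sub (integrable_const C)).integrableOn
    linarith
  refine ⟨Aᶜ.indicator fun x => (starRingEnd ℂ) (k x), ?_, ?_, ?_⟩
  · refine Measurable.indicator ?_ hAm.compl
    exact Complex.continuous_conj.measurable.comp hkm
  · intro x
    by_cases hx : x ∈ A
    · rw [indicator_of_notMem (by simpa using hx), norm_zero]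
      exact hC0
    · rw [indicator_of_mem (by simpa using hx), RCLike.norm_conj]
      exact not_lt.1 hx
  · intro h hh
    rw [hrep h hh]
    refine integral_congr_ae ?_
    have : ∀ᵐ x ∂ρ, x ∉ A := by
      rw [ae_iff]
      simpa using hnull
    filter_upwards [this] with x hx
    rw [indicator_of_mem (by simpa using hx)]

end Riesz

theorem memLp_poly {K : Set ℂ} (hK : IsCompact K) (p : Polynomial ℂ) (q : ℝ≥0∞) :
    MemLp (fun z => p.eval z) q (volume.restrict K) := by
  have : IsFiniteMeasure (volume.restrict K) := ⟨by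
    rw [Measure.restrict_apply_univ]
    exact hK.measure_lt_top⟩
  obtain ⟨B, hB⟩ := hK.exists_bound_of_continuousOn p.continuous.continuousOn
  refine MemLp.of_bound p.continuous.aestronglyMeasurable B ?_
  rw [ae_restrict_iff' hK.measurableSet]
  exact Eventually.of_forall hB

/-- the class of a polynomial in `L¹(K)` -/
noncomputable def cls {K : Set ℂ} (hK : IsCompact K) : Polynomial ℂ →ₗ[ℂ] Lp ℂ 1 (volume.restrict K) where
  toFun p := (memLp_poly hK p 1).toLp _
  map_add' p q := by
    rw [← MemLp.toLp_add]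
    refine MemLp.toLp_congr _ _ (Eventually.of_forall fun z => ?_)
    simp
  map_smul' a p := by
    rw [RingHom.id_apply, ← MemLp.toLp_const_smul]
    refine MemLp.toLp_congr _ _ (Eventually.of_forall fun z => ?_)
    simp

/-- a linear functional on polynomials bounded in `L¹(K)` is integration against a bounded function -/
theorem represent {K : Set ℂ} (hK : IsCompact K) (L : Polynomial ℂ →ₗ[ℂ] ℂ) {C : ℝ}
    (hL : ∀ p : Polynomial ℂ, ‖L p‖ ≤ C * ∫ z in K, ‖p.eval z‖) (hC : 0 ≤ C) :
    ∃ m : ℂ → ℂ, Measurable m ∧ (∀ z, ‖m z‖ ≤ C) ∧ (∀ z, z ∉ K → m z = 0) ∧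
      ∀ p : Polynomial ℂ, ∫ z, m z * p.eval z = L p := by
  have : IsFiniteMeasure (volume.restrict K) := ⟨by
    rw [Measure.restrict_apply_univ]
    exact hK.measure_lt_top⟩
  have hn : ∀ p, ‖cls hK p‖ = ∫ z in K, ‖p.eval z‖ := fun p => norm_toLp_one _ (memLp_poly hK p 1)
  have hker : LinearMap.ker (cls hK) ≤ LinearMap.ker L := by
    intro p hp
    rw [LinearMap.mem_ker] at hp ⊢
    have := hL p
    rw [← hn p, hp, norm_zero, mul_zero] at this
    exact norm_le_zero_iff.1 this
  set φ : LinearMap.range (cls hK) →ₗ[ℂ] ℂ :=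
    ((LinearMap.ker (cls hK)).liftQ L hker) ∘ₗ (cls hK).quotKerEquivRange.symm.toLinearMap with hφ
  have hφp : ∀ p, φ ⟨cls hK p, ⟨p, rfl⟩⟩ = L p := by
    intro p
    have e : (cls hK).quotKerEquivRange.symm ⟨cls hK p, ⟨p, rfl⟩⟩ = Submodule.Quotient.mk p := by
      rw [LinearEquiv.symm_apply_eq]
      rfl
    rw [hφ, LinearMap.comp_apply, LinearEquiv.coe_coe, e]
    exact Submodule.liftQ_apply _ _ _
  have hφb : ∀ x, ‖φ x‖ ≤ C * ‖x‖ := by
    rintro ⟨_, ⟨p, rfl⟩⟩
    rw [hφp]
    exact (hL p).trans (le_of_eq (by rw [← hn p]; rfl))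
  obtain ⟨g, hg, hgn⟩ := exists_extension_norm_eq (LinearMap.range (cls hK)) (φ.mkContinuous C hφb)
  have hgC : ‖g‖ ≤ C := by
    rw [hgn]
    exact LinearMap.mkContinuous_norm_le φ hC hφb
  obtain ⟨m, hm, hmb, hmr⟩ := riesz_one (volume.restrict K) g hgC
  refine ⟨K.indicator m, hm.indicator hK.measurableSet, ?_, ?_, ?_⟩
  · intro z
    by_cases hz : z ∈ K
    · rw [indicator_of_mem hz]
      exact hmb z
    · rw [indicator_of_notMem hz, norm_zero]
      exact hC
  · intro z hz
    exact indicator_of_notMem hz _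
  · intro p
    have h1 : g (cls hK p) = L p := by
      rw [← hφp p]
      exact hg ⟨cls hK p, ⟨p, rfl⟩⟩
    have h2 : g (cls hK p) = ∫ z in K, m z * p.eval z := hmr _ (memLp_poly hK p 2)
    rw [← h1, h2, ← integral_indicator hK.measurableSet]
    refine integral_congr_ae (Eventually.of_forall fun z => ?_)
    beta_reduce
    by_cases hz : z ∈ K
    · rw [indicator_of_mem hz, indicator_of_mem hz]
    · rw [indicator_of_notMem hz, indicator_of_notMem hz, zero_mul]

end Pool.Agent.X151.LF
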