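import Mathlib

/-!
# The filled Julia set of `z ^ d + c`
-/

set_option autoImplicit false

open Filter Topology Metric MeasureTheory Set

namespace Pool.Agent.X151.LF

/-- the map `z ↦ z ^ d + c` -/
def f (d : ℕ) (c z : ℂ) : ℂ := z ^ d + c

/-- the filled Julia set -/
def K (d : ℕ) (c : ℂ) : Set ℂ := {z | ∃ B : ℝ, ∀ n : ℕ, ‖(f d c)^[n] z‖ ≤ B}

/-- an escape radius -/
noncomputable def RR (c : ℂ) : ℝ := 3 + ‖c‖

theorem RR_pos (c : ℂ) : 0 < RR c := by
  unfold RR
  positivity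

theorem step {d : ℕ} (hd : 2 ≤ d) {c z : ℂ} (hz : RR c ≤ ‖z‖) : 2 * ‖z‖ ≤ ‖f d c z‖ := by
  unfold RR at hz
  have hc := norm_nonneg c
  have h1 : ‖z‖ ^ 2 ≤ ‖z‖ ^ d := pow_le_pow_right₀ (by linarith) hd
  have h2 : ‖z‖ ^ d - ‖c‖ ≤ ‖f d c z‖ := by
    have := norm_sub_norm_le (z ^ d) (-c)
    rwa [norm_neg, sub_neg_eq_add, norm_pow] at this
  nlinarith

theorem far_iter {d : ℕ} (hd : 2 ≤ d) {c z : ℂ} (hz : RR c ≤ ‖z‖) (n : ℕ) :
    2 ^ n * ‖z‖ ≤ ‖(f d c)^[n] z‖ ∧ RR c ≤ ‖(f d c)^[n] z‖ := by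
  induction n with
  | zero => simp [hz]
  | succ n ih =>
    rw [Function.iterate_succ_apply']
    have h := step hd ih.2
    have hR := RR_pos c
    refine ⟨?_, by linarith [ih.2]⟩
    rw [pow_succ]
    linarith [ih.1]

theorem not_mem_of_far {d : ℕ} (hd : 2 ≤ d) {c z : ℂ} (hz : RR c ≤ ‖z‖) : z ∉ K d c := by
  rintro ⟨B, hB⟩
  have hz0 : 0 < ‖z‖ := (RR_pos c).trans_le hz
  obtain ⟨n, hn⟩ := pow_unbounded_of_one_lt (B / ‖z‖) (by norm_num : (1 : ℝ) < 2)
  rw [div_lt_iff₀ hz0] at hn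
  linarith [(far_iter hd hz n).1, hB n]

theorem f_mem_iff {d : ℕ} {c z : ℂ} : f d c z ∈ K d c ↔ z ∈ K d c := by
  constructor
  · rintro ⟨B, hB⟩
    refine ⟨max B ‖z‖, fun n => ?_⟩
    rcases n with _ | n
    · exact le_max_right _ _
    · rw [Function.iterate_succ_apply]
      exact (hB n).trans (le_max_left _ _)
  · rintro ⟨B, hB⟩
    refine ⟨B, fun n => ?_⟩
    rw [← Function.iterate_succ_apply]
    exact hB (n + 1)

theorem iter_mem {d : ℕ} {c z : ℂ} (hz : z ∈ K d c) (n : ℕ) : (f d c)^[n] z ∈ K d c := by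
  induction n with
  | zero => exact hz
  | succ n ih =>
    rw [Function.iterate_succ_apply']
    exact f_mem_iff.2 ih

theorem mem_iff {d : ℕ} (hd : 2 ≤ d) {c z : ℂ} : z ∈ K d c ↔ ∀ n, ‖(f d c)^[n] z‖ ≤ RR c := by
  constructor
  · intro hz n
    by_contra hcon
    exact not_mem_of_far hd (not_le.1 hcon).le (iter_mem hz n)
  · intro h
    exact ⟨_, h⟩

theorem diff_iter (d : ℕ) (c : ℂ) (n : ℕ) : Differentiable ℂ (f d c)^[n] := by
  have h : Differentiable ℂ (f d c) := by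
    unfold f
    fun_prop
  exact h.iterate n

theorem isClosed_K {d : ℕ} (hd : 2 ≤ d) (c : ℂ) : IsClosed (K d c) := by
  have e : K d c = ⋂ n : ℕ, {z | ‖(f d c)^[n] z‖ ≤ RR c} := by
    ext z
    rw [mem_iff hd, mem_iInter]
    rfl
  rw [e]
  exact isClosed_iInter fun n => isClosed_le (diff_iter d c n).continuous.norm continuous_const

theorem K_sub {d : ℕ} (hd : 2 ≤ d) (c : ℂ) : K d c ⊆ closedBall 0 (RR c) := by
  intro z hz
  rw [mem_closedBall, dist_zero_right]
  exact (mem_iff hd).1 hz 0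

theorem isCompact_K {d : ℕ} (hd : 2 ≤ d) (c : ℂ) : IsCompact (K d c) :=
  (isCompact_closedBall 0 (RR c)).of_isClosed_subset (isClosed_K hd c) (K_sub hd c)

theorem far_preconnected {R : ℝ} (hR : 0 ≤ R) : IsPreconnected {z : ℂ | R < ‖z‖} := by
  have h1 : {z : ℂ | R < ‖z‖} =
      (fun p : ℝ × ℝ => (p.1 : ℂ) * Complex.exp (p.2 * Complex.I)) '' (Ioi R ×ˢ univ) := by
    ext z
    constructor
    · intro hz
      refine ⟨(‖z‖, Complex.arg z), ⟨hz, trivial⟩, ?_⟩
      exact Complex.norm_mul_exp_arg_mul_I z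
    · rintro ⟨⟨r, θ⟩, ⟨hr, -⟩, rfl⟩
      simp only [mem_Ioi] at hr
      change R < ‖(r : ℂ) * Complex.exp (θ * Complex.I)‖
      rw [norm_mul, Complex.norm_exp_ofReal_mul_I, mul_one, Complex.norm_real,
        Real.norm_of_nonneg (hR.trans hr.le)]
      exact hr
  rw [h1]
  apply IsPreconnected.image
  · exact isPreconnected_Ioi.prod isPreconnected_univ
  · fun_prop

theorem frontier_comp {A : Set ℂ} (hA : IsOpen A) {y z : ℂ}
    (hz : z ∈ frontier (connectedComponentIn A y)) : z ∉ A := by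
  intro hzA
  have hV : IsOpen (connectedComponentIn A z) := hA.connectedComponentIn
  have hzV : z ∈ connectedComponentIn A z := mem_connectedComponentIn hzA
  obtain ⟨w, hwV, hwU⟩ := mem_closure_iff.1 hz.1 _ hV hzV
  have e : connectedComponentIn A z = connectedComponentIn A y := by
    rw [connectedComponentIn_eq hwV, ← connectedComponentIn_eq hwU]
  apply hz.2
  rw [mem_interior]
  exact ⟨_, e.le, hV, hzV⟩

theorem compl_connected {d : ℕ} (hd : 2 ≤ d) (c : ℂ) : IsConnected (K d c)ᶜ := by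
  have hA : IsOpen (K d c)ᶜ := (isClosed_K hd c).isOpen_compl
  set x : ℂ := ((RR c + 1 : ℝ) : ℂ) with hx
  have hxn : ‖x‖ = RR c + 1 := by
    rw [hx, Complex.norm_real, Real.norm_of_nonneg (by linarith [RR_pos c])]
  have hxE : x ∈ {z : ℂ | RR c < ‖z‖} := by
    show RR c < ‖x‖
    linarith
  have hE : {z : ℂ | RR c < ‖z‖} ⊆ (K d c)ᶜ := fun z hz => not_mem_of_far hd (le_of_lt hz)
  refine ⟨⟨x, hE hxE⟩, isPreconnected_of_forall x fun y hy => ?_⟩
  have hfar : ∃ w ∈ connectedComponentIn (K d c)ᶜ y, RR c < ‖w‖ := by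
    by_contra hcon
    push Not at hcon
    apply hy
    rw [mem_iff hd]
    intro n
    have hb : Bornology.IsBounded (connectedComponentIn (K d c)ᶜ y) :=
      isBounded_closedBall.subset (s := connectedComponentIn (K d c)ᶜ y) (t := closedBall 0 (RR c))
        fun w hw => by
          rw [mem_closedBall, dist_zero_right]
          exact hcon w hw
    refine Complex.norm_le_of_forall_mem_frontier_norm_le hb
      ((diff_iter d c n).diffContOnCl) ?_ (subset_closure (mem_connectedComponentIn hy))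
    intro z hz
    have h1 := frontier_comp hA hz
    rw [notMem_compl_iff] at h1
    exact (mem_iff hd).1 h1 n
  obtain ⟨w, hw, hwR⟩ := hfar
  refine ⟨connectedComponentIn (K d c)ᶜ y ∪ {z : ℂ | RR c < ‖z‖}, ?_, Or.inr hxE,
    Or.inl (mem_connectedComponentIn hy), ?_⟩
  · exact union_subset (connectedComponentIn_subset _ _) hE
  · exact isPreconnected_connectedComponentIn.union w hw hwR (far_preconnected (RR_pos c).le)

end Pool.Agent.X151.LF
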