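import Mathlib

/-!
# The change of variables `w = z ^ d` in the plane
-/

set_option autoImplicit false

open Filter Topology Metric MeasureTheory Set

namespace Pool.Agent.X151.LF

/-- the point with polar coordinates `r`, `θ` -/
noncomputable def pt (r θ : ℝ) : ℂ := (r : ℂ) * (Real.cos θ + Real.sin θ * Complex.I)

theorem norm_pt (r θ : ℝ) : ‖pt r θ‖ = |r| := by
  unfold pt
  rw [norm_mul, Complex.norm_real, Real.norm_eq_abs]
  have : ((Real.cos θ : ℂ) + Real.sin θ * Complex.I) = Complex.exp (θ * Complex.I) := by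
    rw [Complex.exp_mul_I, Complex.ofReal_cos, Complex.ofReal_sin]
  rw [this, Complex.norm_exp_ofReal_mul_I, mul_one]

theorem pt_pow (r θ : ℝ) (d : ℕ) : pt r θ ^ d = pt (r ^ d) (d * θ) := by
  unfold pt
  rw [mul_pow, Complex.ofReal_cos, Complex.ofReal_sin, Complex.cos_add_sin_mul_I_pow]
  push_cast
  rfl

theorem measurable_pt : Measurable fun p : ℝ × ℝ => pt p.1 p.2 := by
  unfold pt
  fun_prop

theorem measurable_pt' (r : ℝ) : Measurable fun θ : ℝ => pt r θ := by
  unfold pt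
  fun_prop

theorem angular {G : ℂ → ℂ} (hG : Measurable G) {B : ℝ} (hB : ∀ w, ‖G w‖ ≤ B) {d : ℕ} (hd : 1 ≤ d)
    (ρ : ℝ) : ∫ θ in Ioo (-Real.pi) Real.pi, G (pt ρ (d * θ)) =
      ∫ θ in Ioo (-Real.pi) Real.pi, G (pt ρ θ) := by
  have hπ : -Real.pi ≤ Real.pi := by linarith [Real.pi_pos]
  have hd0 : (d : ℝ) ≠ 0 := by positivity
  have hper : Function.Periodic (fun θ : ℝ => G (pt ρ θ)) (2 * Real.pi) := by
    intro θ
    unfold pt
    simp only [Real.cos_add_two_pi, Real.sin_add_two_pi]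
  have hint : ∀ t₁ t₂ : ℝ, IntervalIntegrable (fun θ : ℝ => G (pt ρ θ)) volume t₁ t₂ := by
    intro t₁ t₂
    refine (intervalIntegrable_const (c := B)).mono_fun ?_ ?_
    · exact (hG.comp (measurable_pt' ρ)).aestronglyMeasurable
    · refine Eventually.of_forall fun θ => ?_
      exact (hB _).trans (le_abs_self _)
  rw [← integral_Ioc_eq_integral_Ioo, ← integral_Ioc_eq_integral_Ioo,
    ← intervalIntegral.integral_of_le hπ, ← intervalIntegral.integral_of_le hπ,
    intervalIntegral.integral_comp_mul_left (fun θ => G (pt ρ θ)) hd0]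
  have h1 := hper.intervalIntegral_add_zsmul_eq (d : ℤ) ((d : ℝ) * -Real.pi) hint
  have e1 : (d : ℝ) * -Real.pi + (d : ℤ) • (2 * Real.pi) = d * Real.pi := by
    rw [zsmul_eq_mul]
    push_cast
    ring
  rw [e1] at h1
  rw [h1]
  have h2 := hper.intervalIntegral_add_eq ((d : ℝ) * -Real.pi) (-Real.pi)
  have e2 : -Real.pi + 2 * Real.pi = Real.pi := by ring
  rw [e2] at h2
  rw [h2, zsmul_eq_mul, Int.cast_natCast, Complex.real_smul, ← mul_assoc]
  push_cast
  rw [inv_mul_cancel₀ (by exact_mod_cast hd0), one_mul]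

theorem radial (Φ : ℝ → ℂ) {d : ℕ} (hd : 1 ≤ d) :
    ∫ r in Ioi (0 : ℝ), ((r ^ (2 * d - 1) : ℝ) : ℂ) * Φ (r ^ d) =
      (1 / (d : ℂ)) * ∫ ρ in Ioi (0 : ℝ), (ρ : ℂ) * Φ ρ := by
  have hd0 : (d : ℝ) ≠ 0 := by positivity
  have hd1 : (d : ℂ) ≠ 0 := by exact_mod_cast hd0
  have h := integral_comp_rpow_Ioi (fun y : ℝ => (y : ℂ) * Φ y) hd0
  rw [← h, ← integral_const_mul]
  refine setIntegral_congr_fun measurableSet_Ioi fun r hr => ?_
  have hr0 : (0 : ℝ) < r := hr
  beta_reduce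
  have e1 : r ^ (d : ℝ) = r ^ d := Real.rpow_natCast r d
  have e2 : r ^ ((d : ℝ) - 1) = r ^ (d - 1) := by
    have : ((d : ℝ) - 1) = ((d - 1 : ℕ) : ℝ) := by
      rw [Nat.cast_sub hd]
      simp
    rw [this, Real.rpow_natCast]
  rw [e1, e2, Complex.real_smul, abs_of_pos (by positivity)]
  have e3 : r ^ (2 * d - 1) = r ^ (d - 1) * r ^ d := by
    rw [← pow_add]
    congr 1
    omega
  rw [e3]
  push_cast
  field_simp

theorem pow_change {G : ℂ → ℂ} (hG : Measurable G) {B : ℝ} (hB : ∀ w, ‖G w‖ ≤ B) {R : ℝ}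
    (hR : ∀ w, R < ‖w‖ → G w = 0) {d : ℕ} (hd : 1 ≤ d) :
    ∫ z : ℂ, G (z ^ d) * ((‖z‖ ^ (2 * (d - 1)) : ℝ) : ℂ) = (1 / (d : ℂ)) * ∫ w : ℂ, G w := by
  have hB0 : 0 ≤ B := (norm_nonneg _).trans (hB 0)
  set R' : ℝ := max R 1 with hR'
  have hR1 : 1 ≤ R' := le_max_right _ _
  have hRR : ∀ w, R' < ‖w‖ → G w = 0 := fun w hw => hR w (lt_of_le_of_lt (le_max_left _ _) hw)
  have htar : polarCoord.target = Ioi (0 : ℝ) ×ˢ Ioo (-Real.pi) Real.pi := rfl
  have hsymm : ∀ p : ℝ × ℝ, Complex.polarCoord.symm p = pt p.1 p.2 := fun p =>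
    Complex.polarCoord_symm_apply p
  -- integrability in polar coordinates
  have hint : ∀ (k : ℕ) (F : ℝ × ℝ → ℂ), Measurable F → (∀ p, ‖F p‖ ≤ B) →
      (∀ p : ℝ × ℝ, R' < p.1 → F p = 0) →
      IntegrableOn (fun p : ℝ × ℝ => ((p.1 ^ k : ℝ) : ℂ) * F p) (Ioi (0 : ℝ) ×ˢ Ioo (-Real.pi) Real.pi)
        (volume.prod volume) := by
    intro k F hF hFB hF0
    have hset : MeasurableSet (Ioc (0 : ℝ) R' ×ˢ Ioo (-Real.pi) Real.pi) :=
      measurableSet_Ioc.prod measurableSet_Ioo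
    have hsub : Ioc (0 : ℝ) R' ×ˢ Ioo (-Real.pi) Real.pi ⊆ Ioi (0 : ℝ) ×ˢ Ioo (-Real.pi) Real.pi := by
      rintro p ⟨h1, h2⟩
      exact ⟨h1.1, h2⟩
    have h1 : IntegrableOn (fun p : ℝ × ℝ => ((p.1 ^ k : ℝ) : ℂ) * F p)
        (Ioc (0 : ℝ) R' ×ˢ Ioo (-Real.pi) Real.pi) (volume.prod volume) := by
      refine Measure.integrableOn_of_bounded (M := R' ^ k * B) ?_ ?_ ?_
      · rw [Measure.prod_prod]
        exact (ENNReal.mul_lt_top measure_Ioc_lt_top measure_Ioo_lt_top).ne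
      · exact ((Complex.measurable_ofReal.comp (measurable_fst.pow_const k)).mul hF).aestronglyMeasurable
      · rw [ae_restrict_iff' hset]
        refine Eventually.of_forall fun p hp => ?_
        rw [norm_mul, Complex.norm_real, Real.norm_eq_abs, abs_pow, abs_of_pos hp.1.1]
        gcongr
        · exact hp.1.1.le
        · exact hp.1.2
        · exact hFB p
    refine h1.of_forall_sdiff_eq_zero (measurableSet_Ioi.prod measurableSet_Ioo) ?_
    rintro p ⟨hp1, hp2⟩
    have h3 : R' < p.1 := by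
      by_contra hcon
      exact hp2 ⟨⟨hp1.1, not_lt.1 hcon⟩, hp1.2⟩
    rw [hF0 p h3, mul_zero]
  have hone : ∀ r θ : ℝ, 0 ≤ r → ‖pt r θ‖ = r := fun r θ hr => by rw [norm_pt, abs_of_nonneg hr]
  -- left-hand side
  have hL : ∫ z : ℂ, G (z ^ d) * ((‖z‖ ^ (2 * (d - 1)) : ℝ) : ℂ) =
      ∫ r in Ioi (0 : ℝ), ∫ θ in Ioo (-Real.pi) Real.pi,
        ((r ^ (2 * d - 1) : ℝ) : ℂ) * G (pt (r ^ d) (d * θ)) := by
    rw [← Complex.integral_comp_polarCoord_symm, htar]
    have h1 : ∫ p in Ioi (0 : ℝ) ×ˢ Ioo (-Real.pi) Real.pi, p.1 • (G (Complex.polarCoord.symm p ^ d) *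
        ((‖Complex.polarCoord.symm p‖ ^ (2 * (d - 1)) : ℝ) : ℂ)) =
        ∫ p in Ioi (0 : ℝ) ×ˢ Ioo (-Real.pi) Real.pi, ((p.1 ^ (2 * d - 1) : ℝ) : ℂ) *
          (if p.1 ≤ R' then G (pt (p.1 ^ d) (d * p.2)) else 0) ∂(volume.prod volume) := by
      refine setIntegral_congr_fun (measurableSet_Ioi.prod measurableSet_Ioo) fun p hp => ?_
      have hp0 : (0 : ℝ) < p.1 := hp.1
      beta_reduce
      rw [hsymm, pt_pow, hone _ _ hp0.le, Complex.real_smul]
      have e : p.1 ^ (2 * d - 1) = p.1 * p.1 ^ (2 * (d - 1)) := by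
        rw [← pow_succ']
        congr 1
        omega
      rw [e]
      push_cast
      split_ifs with h
      · ring
      · have h4 : R' < ‖pt (p.1 ^ d) (d * p.2)‖ := by
          rw [norm_pt, abs_of_pos (by positivity)]
          push Not at h
          calc R' < p.1 := h
            _ = p.1 ^ 1 := (pow_one _).symm
            _ ≤ p.1 ^ d := pow_le_pow_right₀ (by linarith) hd
        rw [hRR _ h4]
        ring
    rw [h1, setIntegral_prod _ (hint _ _ ?_ ?_ ?_)]
    · refine setIntegral_congr_fun measurableSet_Ioi fun r hr => ?_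
      have hr0 : (0 : ℝ) < r := hr
      refine setIntegral_congr_fun measurableSet_Ioo fun θ _ => ?_
      beta_reduce
      split_ifs with h
      · rfl
      · have h4 : R' < ‖pt (r ^ d) (d * θ)‖ := by
          rw [norm_pt, abs_of_pos (by positivity)]
          push Not at h
          calc R' < r := h
            _ = r ^ 1 := (pow_one _).symm
            _ ≤ r ^ d := pow_le_pow_right₀ (by linarith) hd
        rw [hRR _ h4]
    · refine Measurable.ite (measurableSet_le measurable_fst measurable_const) ?_ measurable_const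
      refine hG.comp (measurable_pt.comp ((measurable_fst.pow_const d).prodMk ?_))
      exact measurable_snd.const_mul _
    · intro p
      split_ifs
      · exact hB _
      · rw [norm_zero]; exact hB0
    · intro p hp
      rw [if_neg (not_le.2 hp)]
  have hRt : ∫ w : ℂ, G w = ∫ ρ in Ioi (0 : ℝ), (ρ : ℂ) * ∫ θ in Ioo (-Real.pi) Real.pi, G (pt ρ θ) := by
    rw [← Complex.integral_comp_polarCoord_symm, htar]
    have h1 : ∫ p in Ioi (0 : ℝ) ×ˢ Ioo (-Real.pi) Real.pi, p.1 • G (Complex.polarCoord.symm p) =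
        ∫ p in Ioi (0 : ℝ) ×ˢ Ioo (-Real.pi) Real.pi, ((p.1 ^ 1 : ℝ) : ℂ) *
          (if p.1 ≤ R' then G (pt p.1 p.2) else 0) ∂(volume.prod volume) := by
      refine setIntegral_congr_fun (measurableSet_Ioi.prod measurableSet_Ioo) fun p hp => ?_
      have hp0 : (0 : ℝ) < p.1 := hp.1
      beta_reduce
      rw [hsymm, Complex.real_smul, pow_one]
      split_ifs with h
      · rfl
      · rw [hRR _ (by rw [hone _ _ hp0.le]; exact not_le.1 h)]
    rw [h1, setIntegral_prod _ (hint _ _ ?_ ?_ ?_)]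
    · refine setIntegral_congr_fun measurableSet_Ioi fun r hr => ?_
      have hr0 : (0 : ℝ) < r := hr
      beta_reduce
      rw [← integral_const_mul]
      refine setIntegral_congr_fun measurableSet_Ioo fun θ _ => ?_
      beta_reduce
      rw [pow_one]
      split_ifs with h
      · rfl
      · rw [hRR _ (by rw [hone _ _ hr0.le]; exact not_le.1 h)]
    · exact Measurable.ite (measurableSet_le measurable_fst measurable_const)
        (hG.comp measurable_pt) measurable_const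
    · intro p
      split_ifs
      · exact hB _
      · rw [norm_zero]; exact hB0
    · intro p hp
      rw [if_neg (not_le.2 hp)]
  rw [hL, hRt, ← radial (fun ρ => ∫ θ in Ioo (-Real.pi) Real.pi, G (pt ρ θ)) hd]
  refine setIntegral_congr_fun measurableSet_Ioi fun r _ => ?_
  rw [integral_const_mul, angular hG hB hd]

end Pool.Agent.X151.LF
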