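import Mathlib
import Pool.Agent.X151.LF.Dens
import Pool.Agent.X151.LF.Pow
import Pool.Agent.X151.LF.Fill
import Pool.Agent.X151.LF.Ext

/-!
# Moments of Beltrami differentials that are invariant under `z ^ d + c`
-/

set_option autoImplicit false

open Filter Topology Metric MeasureTheory Set

namespace Pool.Agent.X151.LF

/-- the pull-back of `μ` under `z ↦ z ^ d + c` -/
noncomputable def pb (d : ℕ) (c : ℂ) (μ : ℂ → ℂ) (z : ℂ) : ℂ :=
  μ (f d c z) * (starRingEnd ℂ) (deriv (f d c) z) / deriv (f d c) z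

theorem deriv_f (d : ℕ) (c z : ℂ) : deriv (f d c) z = (d : ℂ) * z ^ (d - 1) := by
  unfold f
  simp

/-- the universal moment sequence -/
noncomputable def M (d : ℕ) (c : ℂ) (k : ℕ) : ℂ :=
  if h : 2 ≤ d ∧ 2 * d - 2 ≤ k ∧ d ∣ k + 2 then
    (1 / (d : ℂ)) * ∑ i : Fin ((k - (2 * d - 2)) / d + 1),
      ((((k - (2 * d - 2)) / d).choose i : ℕ) : ℂ) * (-c) ^ ((k - (2 * d - 2)) / d - (i : ℕ)) *
        M d c i
  else if k + 2 = d then 1 else 0
termination_by k
decreasing_by
  have h1 : (k - (2 * d - 2)) / d ≤ k - (2 * d - 2) := Nat.div_le_self _ _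
  have h2 := i.2
  omega

theorem M_first {d : ℕ} (hd : 2 ≤ d) (c : ℂ) : M d c (d - 2) = 1 := by
  rw [M, dif_neg (by omega), if_pos (by omega)]

theorem M_off {d : ℕ} (c : ℂ) {k : ℕ} (hk : ¬ d ∣ k + 2) : M d c k = 0 := by
  rw [M, dif_neg (fun h => hk h.2.2), if_neg]
  intro h
  exact hk (by rw [h])

theorem M_rec {d : ℕ} (hd : 2 ≤ d) (c : ℂ) (j : ℕ) :
    M d c (2 * d - 2 + d * j) = (1 / (d : ℂ)) *
      ∑ i ∈ Finset.range (j + 1), (j.choose i : ℂ) * (-c) ^ (j - i) * M d c i := by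
  have h0 : 2 * d - 2 + d * j + 2 = d * (j + 2) := by
    rw [mul_add]
    omega
  have hj : (2 * d - 2 + d * j - (2 * d - 2)) / d = j := by
    rw [Nat.add_sub_cancel_left, Nat.mul_div_cancel_left _ (by omega)]
  rw [M, dif_pos ⟨hd, by omega, by rw [h0]; exact dvd_mul_right _ _⟩, hj, Finset.sum_range]

/-- the universal functional on polynomials -/
noncomputable def L (d : ℕ) (c : ℂ) (p : Polynomial ℂ) : ℂ := p.sum fun k a => a * M d c k

/-- the functional as a linear map -/
noncomputable def Llin (d : ℕ) (c : ℂ) : Polynomial ℂ →ₗ[ℂ] ℂ where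
  toFun := L d c
  map_add' p q := by
    unfold L
    exact Polynomial.sum_add_index p q _ (fun k => by simp) (fun k a b => by ring)
  map_smul' a p := by
    unfold L
    rw [RingHom.id_apply, smul_eq_mul, Polynomial.sum_smul_index p a _ (fun k => by simp),
      Polynomial.sum, Polynomial.sum, Finset.mul_sum]
    exact Finset.sum_congr rfl fun k _ => by ring

theorem L_X_pow (d : ℕ) (c : ℂ) (k : ℕ) : L d c (Polynomial.X ^ k) = M d c k := by
  unfold L
  rw [Polynomial.X_pow_eq_monomial, Polynomial.sum_monomial_index]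
  · rw [one_mul]
  · rw [zero_mul]

/-- bounded measurable functions supported on the filled Julia set -/
structure Bd (d : ℕ) (c : ℂ) (μ : ℂ → ℂ) (B : ℝ) : Prop where
  meas : Measurable μ
  bound : ∀ z, ‖μ z‖ ≤ B
  supp : ∀ z, z ∉ K d c → μ z = 0

theorem Bd.integrable {d : ℕ} (hd : 2 ≤ d) {c : ℂ} {μ : ℂ → ℂ} {B : ℝ} (h : Bd d c μ B) :
    Integrable μ := by
  have h1 : IntegrableOn μ (K d c) := Measure.integrableOn_of_bounded (M := B)
    (isCompact_K hd c).measure_lt_top.ne h.meas.aestronglyMeasurable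
    (Eventually.of_forall h.bound)
  exact h1.integrable_of_forall_notMem_eq_zero h.supp

theorem continuous_f (d : ℕ) (c : ℂ) : Continuous (f d c) := by
  unfold f
  fun_prop

theorem pb_bd {d : ℕ} {c : ℂ} {μ : ℂ → ℂ} {B : ℝ} (h : Bd d c μ B) :
    Bd d c (pb d c μ) B := by
  refine ⟨?_, ?_, ?_⟩
  · have e : pb d c μ = fun z => μ (f d c z) * (starRingEnd ℂ) ((d : ℂ) * z ^ (d - 1)) /
        ((d : ℂ) * z ^ (d - 1)) := by
      funext z
      unfold pb
      rw [deriv_f]
    rw [e]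
    have h1 : Measurable fun z : ℂ => (d : ℂ) * z ^ (d - 1) := by fun_prop
    exact ((h.meas.comp (continuous_f d c).measurable).mul
      (Complex.continuous_conj.measurable.comp h1)).div h1
  · intro z
    unfold pb
    rw [norm_div, norm_mul, RCLike.norm_conj]
    by_cases h0 : ‖deriv (f d c) z‖ = 0
    · rw [h0, div_zero]
      exact (norm_nonneg _).trans (h.bound 0)
    · rw [mul_div_cancel_right₀ _ h0]
      exact h.bound _
  · intro z hz
    unfold pb
    rw [h.supp _ (fun hf => hz (f_mem_iff.1 hf)), zero_mul, zero_div]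

theorem int_rot (ω : ℂ) (hω : ‖ω‖ = 1) (F : ℂ → ℂ) : ∫ z, F (ω * z) = ∫ z, F z := by
  set w : Circle := ⟨ω, by simpa [Submonoid.unitSphere] using hω⟩ with hw
  have h1 : MeasurePreserving (rotation w) := (rotation w).measurePreserving
  have h2 := h1.integral_comp (rotation w).toHomeomorph.measurableEmbedding F
  exact h2

theorem moment_off {d : ℕ} (hd : 2 ≤ d) (c : ℂ) (μ : ℂ → ℂ) {k : ℕ} (hk : ¬ d ∣ k + 2) :
    ∫ z, pb d c μ z * z ^ k = 0 := by
  set ω : ℂ := Complex.exp (2 * Real.pi * Complex.I / d) with hω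
  have hprim : IsPrimitiveRoot ω d := Complex.isPrimitiveRoot_exp d (by omega)
  have hn : ‖ω‖ = 1 := hprim.norm'_eq_one (by omega)
  have hω0 : ω ≠ 0 := by
    intro h
    rw [h, norm_zero] at hn
    exact zero_ne_one hn
  have hd1 : ω ^ d = 1 := hprim.pow_eq_one
  have hconj : (starRingEnd ℂ) ω = ω⁻¹ := by
    rw [Complex.inv_def, Complex.normSq_eq_norm_sq, hn]
    simp
  have h1 : ∀ z, pb d c μ (ω * z) * (ω * z) ^ k = ω ^ (k + 2) * (pb d c μ z * z ^ k) := by
    intro z
    unfold pb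
    rw [deriv_f, deriv_f]
    have e : f d c (ω * z) = f d c z := by
      unfold f
      rw [mul_pow, hd1, one_mul]
    rw [e]
    by_cases hz : z = 0
    · rw [hz, mul_zero]
      have : (0 : ℂ) ^ (d - 1) = 0 := zero_pow (by omega)
      rw [this, mul_zero, div_zero, zero_mul, mul_zero]
    have hz1 : z ^ (d - 1) ≠ 0 := pow_ne_zero _ hz
    have hdc : (d : ℂ) ≠ 0 := by
      have : d ≠ 0 := by omega
      exact_mod_cast this
    have hω1 : ω ^ (d - 1) ≠ 0 := pow_ne_zero _ hω0
    have hinv : ω ^ (d - 1) = ω⁻¹ := by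
      refine eq_inv_of_mul_eq_one_left ?_
      rw [← pow_succ]
      have : d - 1 + 1 = d := by omega
      rw [this, hd1]
    rw [mul_pow, mul_pow, hinv, map_mul, map_mul, map_mul, map_inv₀, hconj, inv_inv]
    field_simp
    ring
  have h2 : ∫ z, pb d c μ z * z ^ k = ω ^ (k + 2) * ∫ z, pb d c μ z * z ^ k := by
    rw [← integral_const_mul, ← int_rot ω hn (fun z => pb d c μ z * z ^ k)]
    exact integral_congr_ae (Eventually.of_forall h1)
  have h3 : ω ^ (k + 2) ≠ 1 := by
    rw [Ne, hprim.pow_eq_one_iff_dvd]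
    exact hk
  have h4 : (1 - ω ^ (k + 2)) * ∫ z, pb d c μ z * z ^ k = 0 := by
    rw [sub_mul, one_mul, ← h2, sub_self]
  rcases mul_eq_zero.1 h4 with h5 | h5
  · exact absurd (sub_eq_zero.1 h5).symm h3
  · exact h5

theorem moment_rec {d : ℕ} (hd : 2 ≤ d) {c : ℂ} {μ : ℂ → ℂ} {B : ℝ} (h : Bd d c μ B) (j : ℕ) :
    ∫ z, pb d c μ z * z ^ (2 * d - 2 + d * j) = (1 / (d : ℂ)) *
      ∑ i ∈ Finset.range (j + 1), (j.choose i : ℂ) * (-c) ^ (j - i) * ∫ z, μ z * z ^ i := by
  have hB0 : 0 ≤ B := (norm_nonneg _).trans (h.bound 0)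
  set R : ℝ := RR c + ‖c‖ with hR
  have hR0 : 0 ≤ R := add_nonneg (RR_pos c).le (norm_nonneg c)
  set G : ℂ → ℂ := fun u => μ (u + c) * u ^ j with hG
  have hGm : Measurable G := by
    refine (h.meas.comp (measurable_id.add_const c)).mul ?_
    fun_prop
  have hG0 : ∀ w, R < ‖w‖ → G w = 0 := by
    intro w hw
    rw [hG]
    beta_reduce
    rw [h.supp _ (not_mem_of_far hd ?_), zero_mul]
    have := norm_sub_norm_le w (-c)
    rw [norm_neg, sub_neg_eq_add] at this
    linarith
  have hGB : ∀ w, ‖G w‖ ≤ B * R ^ j := by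
    intro w
    by_cases hw : R < ‖w‖
    · rw [hG0 w hw, norm_zero]
      positivity
    · rw [hG]
      beta_reduce
      rw [norm_mul, norm_pow]
      exact mul_le_mul (h.bound _) (pow_le_pow_left₀ (norm_nonneg _) (not_lt.1 hw) _)
        (by positivity) hB0
  have h1 := pow_change hGm hGB hG0 (show 1 ≤ d by omega)
  have h2 : ∀ z : ℂ, pb d c μ z * z ^ (2 * d - 2 + d * j) =
      G (z ^ d) * ((‖z‖ ^ (2 * (d - 1)) : ℝ) : ℂ) := by
    intro z
    unfold pb
    rw [deriv_f, hG]
    beta_reduce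
    by_cases hz : z = 0
    · rw [hz, norm_zero]
      have e1 : (0 : ℝ) ^ (2 * (d - 1)) = 0 := zero_pow (by omega)
      have e2 : (0 : ℂ) ^ (2 * d - 2 + d * j) = 0 := zero_pow (by omega)
      rw [e1, e2, Complex.ofReal_zero, mul_zero, mul_zero]
    have hdc : (d : ℂ) ≠ 0 := by
      have : d ≠ 0 := by omega
      exact_mod_cast this
    have hz1 : z ^ (d - 1) ≠ 0 := pow_ne_zero _ hz
    have e3 : ((‖z‖ ^ (2 * (d - 1)) : ℝ) : ℂ) = z ^ (d - 1) * (starRingEnd ℂ) (z ^ (d - 1)) := by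
      rw [Complex.mul_conj, Complex.normSq_eq_norm_sq, norm_pow, ← pow_mul]
      congr 2
      ring
    have e4 : z ^ (2 * d - 2 + d * j) = z ^ (d - 1) * z ^ (d - 1) * (z ^ d) ^ j := by
      rw [← pow_add, ← pow_mul, ← pow_add]
      congr 1
      omega
    rw [e3, e4, map_mul, Complex.conj_natCast]
    have e5 : f d c z = z ^ d + c := rfl
    rw [e5]
    field_simp
  rw [integral_congr_ae (Eventually.of_forall h2), h1]
  congr 1
  have h3 : ∫ w, G w = ∫ w, μ w * (w - c) ^ j := by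
    have := integral_sub_right_eq_self (μ := volume) G c
    rw [← this]
    refine integral_congr_ae (Eventually.of_forall fun w => ?_)
    rw [hG]
    beta_reduce
    rw [sub_add_cancel]
  rw [h3]
  have hi := h.integrable hd
  have h4 : ∀ w : ℂ, μ w * (w - c) ^ j = ∑ i ∈ Finset.range (j + 1),
      ((j.choose i : ℂ) * (-c) ^ (j - i)) * (μ w * w ^ i) := by
    intro w
    rw [sub_eq_add_neg, add_pow, Finset.mul_sum]
    exact Finset.sum_congr rfl fun i _ => by ring
  rw [integral_congr_ae (Eventually.of_forall h4), integral_finsetSum]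
  · exact Finset.sum_congr rfl fun i _ => integral_const_mul _ _
  · intro i _
    exact (int_mul (isCompact_K hd c) hi h.supp (continuous_pow i)).const_mul _

end Pool.Agent.X151.LF
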