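import Mathlib
import Pool.Agent.X151.LF.Fun

/-!
# Duality between invariant Beltrami differentials and the moment functional
-/

set_option autoImplicit false

open Filter Topology Metric MeasureTheory Set

namespace Pool.Agent.X151.LF

theorem int_pow {d : ℕ} (hd : 2 ≤ d) {c : ℂ} {μ : ℂ → ℂ} {B : ℝ} (h : Bd d c μ B) {g : ℂ → ℂ}
    (hg : Continuous g) : Integrable fun z => μ z * g z :=
  int_mul (isCompact_K hd c) (h.integrable hd) h.supp hg

/-- the moments of an invariant differential -/
theorem moments {d : ℕ} (hd : 2 ≤ d) {c : ℂ} {μ : ℂ → ℂ} {B : ℝ} (h : Bd d c μ B)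
    (hinv : pb d c μ =ᵐ[volume] μ) (k : ℕ) :
    ∫ z, μ z * z ^ k = (∫ z, μ z * z ^ (d - 2)) * M d c k := by
  have hm : ∀ k, ∫ z, μ z * z ^ k = ∫ z, pb d c μ z * z ^ k := by
    intro k
    refine integral_congr_ae ?_
    filter_upwards [hinv] with z hz
    rw [hz]
  induction k using Nat.strong_induction_on with
  | _ k ih =>
    by_cases hk : d ∣ k + 2
    · by_cases hk2 : 2 * d - 2 ≤ k
      · obtain ⟨j, rfl⟩ : ∃ j, k = 2 * d - 2 + d * j := by
          obtain ⟨a, ha⟩ := hk
          have ha2 : 2 ≤ a := by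
            by_contra hcon
            have : a ≤ 1 := by omega
            have : d * a ≤ d * 1 := Nat.mul_le_mul_left d this
            omega
          refine ⟨a - 2, ?_⟩
          obtain ⟨b, rfl⟩ := Nat.exists_eq_add_of_le ha2
          rw [Nat.add_sub_cancel_left]
          rw [mul_add] at ha
          omega
        rw [hm, moment_rec hd h, M_rec hd, mul_left_comm]
        congr 1
        rw [Finset.mul_sum]
        refine Finset.sum_congr rfl fun i hi => ?_
        have hi' : i < 2 * d - 2 + d * j := by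
          rw [Finset.mem_range] at hi
          have : j ≤ d * j := Nat.le_mul_of_pos_left j (by omega)
          omega
        rw [ih i hi']
        ring
      · have hk3 : k = d - 2 := by
          obtain ⟨a, ha⟩ := hk
          have ha1 : a = 1 := by
            have h1 : 1 ≤ a := by
              by_contra hcon
              have : a = 0 := by omega
              rw [this] at ha
              omega
            have h2 : a < 2 := by
              by_contra hcon
              have : d * 2 ≤ d * a := Nat.mul_le_mul_left d (by omega)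
              omega
            omega
          rw [ha1] at ha
          omega
        rw [hk3, M_first hd, mul_one]
    · rw [M_off c hk, mul_zero, hm, moment_off hd c μ hk]

theorem int_eval {d : ℕ} (hd : 2 ≤ d) {c : ℂ} {μ : ℂ → ℂ} {B : ℝ} (h : Bd d c μ B)
    (hinv : pb d c μ =ᵐ[volume] μ) (p : Polynomial ℂ) :
    ∫ z, μ z * p.eval z = (∫ z, μ z * z ^ (d - 2)) * L d c p := by
  rw [int_poly (isCompact_K hd c) (h.integrable hd) h.supp p, L, Polynomial.sum, Polynomial.sum,
    Finset.mul_sum]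
  refine Finset.sum_congr rfl fun k _ => ?_
  rw [moments hd h hinv]
  ring

/-- differentials with the universal moments are invariant -/
theorem inv_of_moments {d : ℕ} (hd : 2 ≤ d) {c : ℂ} (hint : interior (K d c) = ∅) {μ : ℂ → ℂ} {B : ℝ}
    (h : Bd d c μ B) (hm : ∀ k, ∫ z, μ z * z ^ k = M d c k) : pb d c μ =ᵐ[volume] μ := by
  have hp := pb_bd h
  have h1 : ∀ k, k ≠ d - 2 → ∫ z, pb d c μ z * z ^ k = M d c k := by
    intro k hk
    by_cases hk1 : d ∣ k + 2
    · obtain ⟨j, rfl⟩ : ∃ j, k = 2 * d - 2 + d * j := by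
        obtain ⟨a, ha⟩ := hk1
        have ha2 : 2 ≤ a := by
          by_contra hcon
          rcases Nat.lt_or_ge a 1 with h0 | h0
          · have : a = 0 := by omega
            rw [this] at ha
            omega
          · have : a = 1 := by omega
            rw [this] at ha
            omega
        refine ⟨a - 2, ?_⟩
        obtain ⟨b, rfl⟩ := Nat.exists_eq_add_of_le ha2
        rw [Nat.add_sub_cancel_left]
        rw [mul_add] at ha
        omega
      rw [moment_rec hd h, M_rec hd]
      congr 1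
      exact Finset.sum_congr rfl fun i _ => by rw [hm i]
    · rw [M_off c hk1, moment_off hd c μ hk1]
  set u : ℂ → ℂ := fun z => (pb d c μ z - μ z) * z ^ (d - 1) with hu
  have hui : Integrable u := by
    have := (int_pow hd hp (continuous_pow (d - 1))).sub (int_pow hd h (continuous_pow (d - 1)))
    refine this.congr (Eventually.of_forall fun z => ?_)
    rw [hu]
    simp only [Pi.sub_apply]
    ring
  have hus : ∀ z, z ∉ K d c → u z = 0 := by
    intro z hz
    rw [hu]
    beta_reduce
    rw [hp.supp z hz, h.supp z hz, sub_zero, zero_mul]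
  have h2 : ∀ᵐ z, u z = 0 := by
    refine ae_zero (isCompact_K hd c) (compl_connected hd c) hint hui hus fun k => ?_
    have e : ∀ z, u z * z ^ k = pb d c μ z * z ^ (d - 1 + k) - μ z * z ^ (d - 1 + k) := by
      intro z
      rw [hu]
      beta_reduce
      rw [pow_add]
      ring
    rw [integral_congr_ae (Eventually.of_forall e),
      integral_sub (int_pow hd hp (continuous_pow _)) (int_pow hd h (continuous_pow _)),
      h1 _ (by omega), hm, sub_self]
  have h3 : ∀ᵐ z : ℂ, z ≠ 0 := by
    rw [ae_iff]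
    simp
  filter_upwards [h2, h3] with z hz hz0
  rw [hu] at hz
  rcases mul_eq_zero.1 hz with h4 | h4
  · exact sub_eq_zero.1 h4
  · exact absurd h4 (pow_ne_zero _ hz0)

/-- a bounded invariant differential is determined by its moment of order `d - 2` -/
theorem unique {d : ℕ} (hd : 2 ≤ d) {c : ℂ} (hint : interior (K d c) = ∅) {μ₁ μ₂ : ℂ → ℂ} {B₁ B₂ : ℝ}
    (h₁ : Bd d c μ₁ B₁) (h₂ : Bd d c μ₂ B₂) (i₁ : pb d c μ₁ =ᵐ[volume] μ₁)
    (i₂ : pb d c μ₂ =ᵐ[volume] μ₂) :
    ∀ᵐ z, (∫ z, μ₂ z * z ^ (d - 2)) * μ₁ z = (∫ z, μ₁ z * z ^ (d - 2)) * μ₂ z := by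
  set m₁ := ∫ z, μ₁ z * z ^ (d - 2) with hm₁
  set m₂ := ∫ z, μ₂ z * z ^ (d - 2) with hm₂
  have hi : Integrable fun z => m₂ * μ₁ z - m₁ * μ₂ z :=
    ((h₁.integrable hd).const_mul m₂).sub ((h₂.integrable hd).const_mul m₁)
  have h3 : ∀ᵐ z, m₂ * μ₁ z - m₁ * μ₂ z = 0 := by
    refine ae_zero (isCompact_K hd c) (compl_connected hd c) hint hi (fun z hz => ?_) fun k => ?_
    · rw [h₁.supp z hz, h₂.supp z hz, mul_zero, mul_zero, sub_zero]
    · have e : ∀ z, (m₂ * μ₁ z - m₁ * μ₂ z) * z ^ k = m₂ * (μ₁ z * z ^ k) - m₁ * (μ₂ z * z ^ k) :=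
        fun z => by ring
      rw [integral_congr_ae (Eventually.of_forall e), integral_sub
        ((int_pow hd h₁ (continuous_pow k)).const_mul m₂)
        ((int_pow hd h₂ (continuous_pow k)).const_mul m₁), integral_const_mul, integral_const_mul,
        moments hd h₁ i₁, moments hd h₂ i₂]
      ring
  filter_upwards [h3] with z hz
  exact sub_eq_zero.1 hz

theorem moment_ne_zero {d : ℕ} (hd : 2 ≤ d) {c : ℂ} (hint : interior (K d c) = ∅) {μ : ℂ → ℂ} {B : ℝ}
    (h : Bd d c μ B) (hinv : pb d c μ =ᵐ[volume] μ) (hpos : 0 < volume {z | μ z ≠ 0}) :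
    ∫ z, μ z * z ^ (d - 2) ≠ 0 := by
  intro h0
  have h1 : ∀ᵐ z, μ z = 0 := by
    refine ae_zero (isCompact_K hd c) (compl_connected hd c) hint (h.integrable hd) h.supp fun k => ?_
    rw [moments hd h hinv, h0, zero_mul]
  rw [ae_iff] at h1
  exact hpos.ne' h1

/-- the differential given by an `L¹` bound for the functional -/
theorem exists_of_bound {d : ℕ} (hd : 2 ≤ d) {c : ℂ} (hint : interior (K d c) = ∅) {C : ℝ}
    (hC : ∀ p : Polynomial ℂ, ‖L d c p‖ ≤ C * ∫ z in K d c, ‖p.eval z‖) :
    0 < C ∧ ∃ μ : ℂ → ℂ, Bd d c μ C ∧ pb d c μ =ᵐ[volume] μ ∧ ∫ z, μ z * z ^ (d - 2) = 1 := by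
  have h0 : 0 < C := by
    have h1 := hC (Polynomial.X ^ (d - 2))
    rw [L_X_pow, M_first hd, norm_one] at h1
    by_contra hcon
    have h2 : 0 ≤ ∫ z in K d c, ‖(Polynomial.X ^ (d - 2) : Polynomial ℂ).eval z‖ :=
      integral_nonneg fun z => norm_nonneg _
    nlinarith [not_lt.1 hcon]
  obtain ⟨m, hm, hmb, hms, hmp⟩ := represent (isCompact_K hd c) (Llin d c) hC h0.le
  have hmk : ∀ k, ∫ z, m z * z ^ k = M d c k := by
    intro k
    have h1 := hmp (Polynomial.X ^ k)
    simp only [Polynomial.eval_pow, Polynomial.eval_X] at h1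
    rw [h1]
    exact L_X_pow d c k
  have hb : Bd d c m C := ⟨hm, hmb, hms⟩
  exact ⟨h0, m, hb, inv_of_moments hd hint hb hmk, by rw [hmk, M_first hd]⟩

/-- the unimodular part of an invariant differential -/
theorem phase {d : ℕ} {c : ℂ} {μ : ℂ → ℂ} {B : ℝ} (h : Bd d c μ B)
    (hinv : pb d c μ =ᵐ[volume] μ) :
    Bd d c (fun z => μ z / (‖μ z‖ : ℂ)) 1 ∧
      pb d c (fun z => μ z / (‖μ z‖ : ℂ)) =ᵐ[volume] fun z => μ z / (‖μ z‖ : ℂ) := by
  refine ⟨⟨?_, ?_, ?_⟩, ?_⟩
  · exact h.meas.div (Complex.measurable_ofReal.comp h.meas.norm)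
  · intro z
    rw [norm_div, Complex.norm_real, norm_norm]
    exact div_self_le_one _
  · intro z hz
    rw [h.supp z hz, zero_div]
  · have h3 : ∀ᵐ z : ℂ, z ≠ 0 := by
      rw [ae_iff]
      simp
    filter_upwards [hinv, h3] with z hz hz0
    by_cases hd0 : d = 0
    · subst hd0
      unfold pb at hz ⊢
      rw [deriv_f] at hz ⊢
      simp only [Nat.cast_zero, zero_mul, map_zero, mul_zero, div_zero] at hz ⊢
      rw [← hz, zero_div]
    have hdc : (d : ℂ) ≠ 0 := by exact_mod_cast hd0
    have hD : deriv (f d c) z ≠ 0 := by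
      rw [deriv_f]
      exact mul_ne_zero hdc (pow_ne_zero _ hz0)
    have hn : ‖μ (f d c z)‖ = ‖μ z‖ := by
      rw [← hz]
      unfold pb
      rw [norm_div, norm_mul, RCLike.norm_conj, mul_div_cancel_right₀ _ (norm_ne_zero_iff.2 hD)]
    unfold pb at hz ⊢
    beta_reduce
    rw [hn, ← hz]
    ring

end Pool.Agent.X151.LF
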