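import Mathlib
import Pool.Agent.X151.LF.Core

/-!
# Dependence on the parameter
-/

set_option autoImplicit false

open Filter Topology Metric MeasureTheory Set

namespace Pool.Agent.X151.LF

theorem continuous_M (d k : ℕ) : Continuous fun c => M d c k := by
  induction k using Nat.strong_induction_on with
  | _ k ih =>
    by_cases h : 2 ≤ d ∧ 2 * d - 2 ≤ k ∧ d ∣ k + 2
    · have e : (fun c => M d c k) = fun c => (1 / (d : ℂ)) *
          ∑ i : Fin ((k - (2 * d - 2)) / d + 1), ((((k - (2 * d - 2)) / d).choose i : ℕ) : ℂ) *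
            (-c) ^ ((k - (2 * d - 2)) / d - (i : ℕ)) * M d c i := by
        funext c
        rw [M, dif_pos h]
      rw [e]
      refine continuous_const.mul (continuous_finsetSum _ fun i _ => ?_)
      have hi : (i : ℕ) < k := by
        have h1 : (k - (2 * d - 2)) / d ≤ k - (2 * d - 2) := Nat.div_le_self _ _
        have h2 := i.2
        omega
      exact (continuous_const.mul (continuous_neg.pow _)).mul (ih i hi)
    · have e : (fun c => M d c k) = fun _ => if k + 2 = d then 1 else 0 := by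
        funext c
        rw [M, dif_neg h]
      rw [e]
      exact continuous_const

theorem continuous_L (d : ℕ) (p : Polynomial ℂ) : Continuous fun c => L d c p := by
  unfold L Polynomial.sum
  exact continuous_finsetSum _ fun k _ => continuous_const.mul (continuous_M d k)

theorem continuous_iter (d n : ℕ) (z : ℂ) : Continuous fun c => (f d c)^[n] z := by
  induction n with
  | zero => exact continuous_const
  | succ n ih =>
    have e : (fun c => (f d c)^[n + 1] z) = fun c => ((f d c)^[n] z) ^ d + c := by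
      funext c
      rw [Function.iterate_succ_apply']
      rfl
    rw [e]
    exact (ih.pow d).add continuous_id

theorem continuous_RR : Continuous RR := by
  unfold RR
  fun_prop

theorem escape_near {d : ℕ} (hd : 2 ≤ d) {c₀ z : ℂ} (hz : z ∉ K d c₀) :
    ∀ᶠ c in 𝓝 c₀, z ∉ K d c := by
  rw [mem_iff hd] at hz
  push Not at hz
  obtain ⟨N, hN⟩ := hz
  have h1 := (continuous_iter d N z).norm.tendsto c₀
  have h2 := continuous_RR.tendsto c₀
  filter_upwards [h2.eventually_lt h1 hN] with c hn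
  rw [mem_iff hd]
  push Not
  exact ⟨N, hn⟩

theorem int_sdiff {d : ℕ} (hd : 2 ≤ d) (c₀ : ℂ) (p : Polynomial ℂ) :
    Tendsto (fun c => ∫ z in K d c \ K d c₀, ‖p.eval z‖) (𝓝 c₀) (𝓝 0) := by
  have hms : ∀ c, MeasurableSet (K d c \ K d c₀) := fun c =>
    (isCompact_K hd _).measurableSet.diff (isCompact_K hd _).measurableSet
  have hmp : Measurable fun z : ℂ => ‖p.eval z‖ := p.continuous.norm.measurable
  set D : Set ℂ := closedBall 0 (RR c₀ + 1) with hD
  obtain ⟨B, hB⟩ := (isCompact_closedBall (0 : ℂ) (RR c₀ + 1)).exists_bound_of_continuousOn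
    p.continuous.continuousOn
  have hD' : IsCompact D := isCompact_closedBall _ _
  have h2 := continuous_RR.tendsto c₀
  have h3 : ∀ᶠ c in 𝓝 c₀, RR c < RR c₀ + 1 := h2.eventually_lt_const (by linarith)
  have h4 := tendsto_integral_filter_of_dominated_convergence (μ := (volume : Measure ℂ))
    (l := 𝓝 c₀) (F := fun c z => (K d c \ K d c₀).indicator (fun z => ‖p.eval z‖) z)
    (f := fun _ => (0 : ℝ)) (D.indicator fun _ => B)
    (Eventually.of_forall fun c => (hmp.indicator (hms c)).aestronglyMeasurable) ?_ ?_ ?_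
  · rw [integral_zero] at h4
    refine h4.congr fun c => ?_
    rw [integral_indicator (hms c)]
  · filter_upwards [h3] with c hn
    refine Eventually.of_forall fun z => ?_
    by_cases hz : z ∈ K d c \ K d c₀
    · have hzD : z ∈ D := by
        have := K_sub hd _ hz.1
        rw [mem_closedBall] at this
        rw [hD, mem_closedBall]
        linarith
      rw [indicator_of_mem hz, indicator_of_mem hzD, norm_norm]
      exact hB z hzD
    · rw [indicator_of_notMem hz, norm_zero]
      by_cases hzD : z ∈ D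
      · rw [indicator_of_mem hzD]
        exact (norm_nonneg _).trans (hB z hzD)
      · rw [indicator_of_notMem hzD]
  · rw [integrable_indicator_iff hD'.measurableSet]
    exact integrableOn_const hD'.measure_lt_top.ne
  · refine Eventually.of_forall fun z => ?_
    by_cases hz : z ∈ K d c₀
    · refine tendsto_const_nhds.congr fun c => ?_
      rw [indicator_of_notMem (fun h => h.2 hz)]
    · refine tendsto_const_nhds.congr' ?_
      filter_upwards [escape_near hd hz] with c hn
      rw [indicator_of_notMem (fun h => hn h.1)]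

/-- the extremal value: the least `L¹(K)` norm of a polynomial on which the functional is one -/
noncomputable def lam (d : ℕ) (c : ℂ) : ℝ :=
  sInf {t : ℝ | ∃ p : Polynomial ℂ, L d c p = 1 ∧ t = ∫ z in K d c, ‖p.eval z‖}

theorem lam_bdd (d : ℕ) (c : ℂ) :
    BddBelow {t : ℝ | ∃ p : Polynomial ℂ, L d c p = 1 ∧ t = ∫ z in K d c, ‖p.eval z‖} := by
  refine ⟨0, ?_⟩
  rintro _ ⟨p, -, rfl⟩
  exact integral_nonneg fun z => norm_nonneg _

theorem lam_nonempty {d : ℕ} (hd : 2 ≤ d) (c : ℂ) :
    {t : ℝ | ∃ p : Polynomial ℂ, L d c p = 1 ∧ t = ∫ z in K d c, ‖p.eval z‖}.Nonempty :=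
  ⟨_, Polynomial.X ^ (d - 2), by rw [L_X_pow, M_first hd], rfl⟩

theorem lam_nonneg (d : ℕ) (c : ℂ) : 0 ≤ lam d c := by
  refine Real.sInf_nonneg ?_
  rintro _ ⟨p, -, rfl⟩
  exact integral_nonneg fun z => norm_nonneg _

theorem L_smul (d : ℕ) (c a : ℂ) (p : Polynomial ℂ) : L d c (a • p) = a * L d c p := by
  have := (Llin d c).map_smul a p
  rwa [smul_eq_mul] at this

theorem int_smul (d : ℕ) (c a : ℂ) (p : Polynomial ℂ) :
    ∫ z in K d c, ‖(a • p).eval z‖ = ‖a‖ * ∫ z in K d c, ‖p.eval z‖ := by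
  rw [← integral_const_mul]
  refine integral_congr_ae (Eventually.of_forall fun z => ?_)
  simp

/-- the extremal value gives the bound for the functional -/
theorem lam_le (d : ℕ) (c : ℂ) (p : Polynomial ℂ) :
    lam d c * ‖L d c p‖ ≤ ∫ z in K d c, ‖p.eval z‖ := by
  by_cases h0 : L d c p = 0
  · rw [h0, norm_zero, mul_zero]
    exact integral_nonneg fun z => norm_nonneg _
  have hn : 0 < ‖L d c p‖ := norm_pos_iff.2 h0
  have h1 : lam d c ≤ ∫ z in K d c, ‖((L d c p)⁻¹ • p).eval z‖ := by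
    refine csInf_le (lam_bdd d c) ⟨(L d c p)⁻¹ • p, ?_, rfl⟩
    rw [L_smul, inv_mul_cancel₀ h0]
  rw [int_smul, norm_inv] at h1
  calc lam d c * ‖L d c p‖ ≤ (‖L d c p‖⁻¹ * ∫ z in K d c, ‖p.eval z‖) * ‖L d c p‖ :=
        mul_le_mul_of_nonneg_right h1 hn.le
    _ = ∫ z in K d c, ‖p.eval z‖ := by
        field_simp

theorem le_lam {d : ℕ} (hd : 2 ≤ d) {c : ℂ} {b : ℝ}
    (hb : ∀ p : Polynomial ℂ, b * ‖L d c p‖ ≤ ∫ z in K d c, ‖p.eval z‖) : b ≤ lam d c := by
  refine le_csInf (lam_nonempty hd c) ?_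
  rintro _ ⟨p, hp, rfl⟩
  have := hb p
  rwa [hp, norm_one, mul_one] at this

/-- the extremal value is upper semicontinuous in the parameter -/
theorem usc {d : ℕ} (hd : 2 ≤ d) : UpperSemicontinuous (lam d) := by
  intro c₀ y hy
  obtain ⟨_, ⟨p, hp, rfl⟩, hpy⟩ := exists_lt_of_csInf_lt (lam_nonempty hd c₀) hy
  have hpi : ∀ s : Set ℂ, IsCompact s → IntegrableOn (fun z : ℂ => ‖p.eval z‖) s := fun s hs =>
    p.continuous.norm.continuousOn.integrableOn_compact hs
  have h1 : Tendsto (fun c => L d c p) (𝓝 c₀) (𝓝 1) := by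
    have := (continuous_L d p).tendsto c₀
    rwa [hp] at this
  have h2 : Tendsto (fun c => ‖(L d c p)⁻¹‖ * ((∫ z in K d c₀, ‖p.eval z‖) +
      ∫ z in K d c \ K d c₀, ‖p.eval z‖)) (𝓝 c₀) (𝓝 (‖(1 : ℂ)⁻¹‖ * ((∫ z in K d c₀, ‖p.eval z‖) + 0))) :=
    (h1.inv₀ one_ne_zero).norm.mul (tendsto_const_nhds.add (int_sdiff hd c₀ p))
  rw [inv_one, norm_one, one_mul, add_zero] at h2
  have h3 : ∀ᶠ c in 𝓝 c₀, L d c p ≠ 0 := h1.eventually_ne one_ne_zero
  filter_upwards [h3, h2.eventually_lt_const hpy] with c hc0 hc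
  refine lt_of_le_of_lt ?_ hc
  have h4 : lam d c ≤ ∫ z in K d c, ‖((L d c p)⁻¹ • p).eval z‖ := by
    refine csInf_le (lam_bdd d c) ⟨(L d c p)⁻¹ • p, ?_, rfl⟩
    rw [L_smul, inv_mul_cancel₀ hc0]
  rw [int_smul] at h4
  refine h4.trans (mul_le_mul_of_nonneg_left ?_ (norm_nonneg _))
  have hm0 : MeasurableSet (K d c₀) := (isCompact_K hd c₀).measurableSet
  have h5 : ∫ z in K d c, ‖p.eval z‖ ≤ ∫ z in K d c₀ ∪ (K d c \ K d c₀), ‖p.eval z‖ := by
    refine setIntegral_mono_set ?_ (Eventually.of_forall fun z => norm_nonneg _) ?_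
    · exact (hpi _ (isCompact_K hd c₀)).union ((hpi _ (isCompact_K hd c)).mono_set sdiff_subset)
    · refine (LE.le.eventuallyLE ?_)
      intro z hz
      by_cases h : z ∈ K d c₀
      · exact Or.inl h
      · exact Or.inr ⟨hz, h⟩
  rwa [setIntegral_union disjoint_sdiff_right ((isCompact_K hd c).measurableSet.diff hm0)
    (hpi _ (isCompact_K hd c₀)) ((hpi _ (isCompact_K hd c)).mono_set sdiff_subset)] at h5

end Pool.Agent.X151.LF
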