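import Mathlib
import Pool.Agent.X151.LF.Dens

/-!
# Cauchy transforms near infinity
-/

set_option autoImplicit false

open Filter Topology Metric MeasureTheory Set

namespace Pool.Agent.X151.LF

theorem far_ne {R : ℝ} {w s : ℂ} (hw : R < ‖w‖) (hs : ‖s‖ ≤ R) : w - s ≠ 0 := by
  intro h
  rw [sub_eq_zero] at h
  rw [h] at hw
  linarith

/-- the kernel `w / (w - s)` cut off outside `K` is bounded -/
theorem ker_le {R : ℝ} {w s : ℂ} (hw : R < ‖w‖) (hs : ‖s‖ ≤ R) :
    ‖w / (w - s)‖ ≤ ‖w‖ / (‖w‖ - R) := by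
  rw [norm_div]
  refine div_le_div_of_nonneg_left (norm_nonneg _) (by linarith) ?_
  have := norm_sub_norm_le w s
  linarith

theorem int_ker {K : Set ℂ} {R : ℝ} (hR : ∀ s ∈ K, ‖s‖ ≤ R)
    {u : ℂ → ℂ} (hu : Integrable u) (hs : ∀ z, z ∉ K → u z = 0) {w : ℂ} (hw : R < ‖w‖) :
    Integrable (fun s => u s * (w / (w - s))) := by
  refine (hu.norm.mul_const (‖w‖ / (‖w‖ - R))).mono' ?_ ?_
  · refine hu.aestronglyMeasurable.mul ?_
    exact (measurable_const.div (measurable_const.sub measurable_id)).aestronglyMeasurable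
  · refine Eventually.of_forall fun z => ?_
    rw [norm_mul]
    by_cases hz : z ∈ K
    · exact mul_le_mul_of_nonneg_left (ker_le hw (hR z hz)) (norm_nonneg _)
    · rw [hs z hz]
      simp

/-- expansion of the Cauchy transform near infinity -/
theorem expand {K : Set ℂ} (hK : IsCompact K) {R : ℝ} (hR0 : 0 ≤ R) (hR : ∀ s ∈ K, ‖s‖ ≤ R)
    {u : ℂ → ℂ} (hu : Integrable u) (hs : ∀ z, z ∉ K → u z = 0) {w : ℂ} (hw : R < ‖w‖) (k : ℕ) :
    ∫ s, u s * s ^ k * (w / (w - s)) =
      w ^ (k + 1) * (∫ s, u s / (w - s)) - ∑ j ∈ Finset.range k, w ^ (k - j) * ∫ s, u s * s ^ j := by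
  have hw0 : w ≠ 0 := by
    intro h
    rw [h, norm_zero] at hw
    linarith
  induction k with
  | zero =>
    rw [Finset.sum_range_zero, sub_zero, zero_add, pow_one, ← integral_const_mul]
    refine integral_congr_ae (Eventually.of_forall fun s => ?_)
    beta_reduce
    rw [pow_zero, mul_one]
    ring
  | succ k ih =>
    have huk : Integrable (fun s => u s * s ^ k) := int_mul hK hu hs (continuous_pow k)
    have hsk : ∀ z, z ∉ K → u z * z ^ k = 0 := fun z hz => by rw [hs z hz, zero_mul]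
    have h1 : ∀ s, u s * s ^ (k + 1) * (w / (w - s)) =
        w * (u s * s ^ k * (w / (w - s))) - w * (u s * s ^ k) := by
      intro s
      by_cases hz : s ∈ K
      · have hne := far_ne hw (hR s hz)
        field_simp
        ring
      · rw [hs s hz]
        simp
    rw [integral_congr_ae (Eventually.of_forall h1), integral_sub
      ((int_ker hR huk hsk hw).const_mul w) (huk.const_mul w), integral_const_mul,
      integral_const_mul, ih, Finset.sum_range_succ, mul_sub, Finset.mul_sum]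
    have h2 : ∀ j ∈ Finset.range k, w * (w ^ (k - j) * ∫ s, u s * s ^ j) =
        w ^ (k + 1 - j) * ∫ s, u s * s ^ j := by
      intro j hj
      rw [Finset.mem_range] at hj
      rw [← mul_assoc, ← pow_succ']
      congr 2
      omega
    rw [Finset.sum_congr rfl h2]
    have h3 : k + 1 - k = 1 := by omega
    rw [h3, pow_one]
    ring

theorem ker_tendsto (s : ℂ) :
    Tendsto (fun n : ℕ => (n : ℂ) / (n - s)) atTop (𝓝 1) := by
  have h1 : Tendsto (fun n : ℕ => (n : ℂ)⁻¹) atTop (𝓝 0) := tendsto_inv_atTop_nhds_zero_nat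
  have h2 : Tendsto (fun n : ℕ => (1 - s * (n : ℂ)⁻¹)⁻¹) atTop (𝓝 (1 - s * 0)⁻¹) :=
    (tendsto_const_nhds.sub (h1.const_mul s)).inv₀ (by simp)
  rw [mul_zero, sub_zero, inv_one] at h2
  refine h2.congr' ?_
  filter_upwards [eventually_gt_atTop 0] with n hn
  have hn0 : (n : ℂ) ≠ 0 := by exact_mod_cast hn.ne'
  by_cases h : (n : ℂ) - s = 0
  · rw [h, div_zero]
    have : s = n := (sub_eq_zero.1 h).symm
    rw [this, mul_inv_cancel₀ hn0, sub_self, inv_zero]
  · have h3 : 1 - s * (n : ℂ)⁻¹ = (n - s) / n := by field_simp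
    rw [h3, inv_div]

theorem lim_ker {K : Set ℂ} {R : ℝ} (hR0 : 0 ≤ R) (hR : ∀ s ∈ K, ‖s‖ ≤ R)
    {u : ℂ → ℂ} (hu : Integrable u) (hs : ∀ z, z ∉ K → u z = 0) :
    Tendsto (fun n : ℕ => ∫ s, u s * ((n : ℂ) / (n - s))) atTop (𝓝 (∫ s, u s)) := by
  refine tendsto_integral_filter_of_dominated_convergence (fun s => ‖u s‖ * 2) ?_ ?_ ?_ ?_
  · refine Eventually.of_forall fun n => hu.aestronglyMeasurable.mul ?_
    exact (measurable_const.div (measurable_const.sub measurable_id)).aestronglyMeasurable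
  · have h1 : ∀ᶠ n : ℕ in atTop, 2 * R + 1 < (n : ℝ) := by
      have := tendsto_natCast_atTop_atTop (R := ℝ)
      exact this.eventually_gt_atTop _
    filter_upwards [h1] with n hn
    refine Eventually.of_forall fun z => ?_
    rw [norm_mul]
    by_cases hz : z ∈ K
    · refine mul_le_mul_of_nonneg_left ?_ (norm_nonneg _)
      have hnn : ‖(n : ℂ)‖ = n := by simp
      refine (ker_le (R := R) (by rw [hnn]; linarith) (hR z hz)).trans ?_
      rw [hnn, div_le_iff₀ (by linarith)]
      linarith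
    · rw [hs z hz]
      simp
  · exact hu.norm.mul_const 2
  · refine Eventually.of_forall fun z => ?_
    have := (ker_tendsto z).const_mul (u z)
    rwa [mul_one] at this

/-- if the Cauchy transform vanishes near infinity then so do the moments -/
theorem moments_zero {K : Set ℂ} (hK : IsCompact K) {R : ℝ} (hR0 : 0 ≤ R) (hR : ∀ s ∈ K, ‖s‖ ≤ R)
    {u : ℂ → ℂ} (hu : Integrable u) (hs : ∀ z, z ∉ K → u z = 0)
    (h : ∀ᶠ n : ℕ in atTop, ∫ s, u s / ((n : ℂ) - s) = 0) (k : ℕ) : ∫ s, u s * s ^ k = 0 := by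
  induction k using Nat.strong_induction_on with
  | _ k ih =>
    have h1 := lim_ker hR0 hR (int_mul hK hu hs (continuous_pow k))
      (fun z hz => by rw [hs z hz, zero_mul])
    have h2 : ∀ᶠ n : ℕ in atTop, R < (n : ℝ) :=
      (tendsto_natCast_atTop_atTop (R := ℝ)).eventually_gt_atTop _
    refine tendsto_nhds_unique h1 (tendsto_const_nhds.congr' ?_)
    filter_upwards [h, h2] with n hn hn2
    have hnn : ‖(n : ℂ)‖ = n := by simp
    rw [expand hK hR0 hR hu hs (w := n) (by rw [hnn]; exact hn2) k, hn, mul_zero, zero_sub, eq_comm,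
      neg_eq_zero]
    refine Finset.sum_eq_zero fun j hj => ?_
    rw [ih j (Finset.mem_range.1 hj), mul_zero]

/-- moments of a function whose Cauchy transform is a multiple of `w ^ (- (m + 1))` near infinity -/
theorem moments_pow {K : Set ℂ} (hK : IsCompact K) {R : ℝ} (hR0 : 0 ≤ R) (hR : ∀ s ∈ K, ‖s‖ ≤ R)
    {u : ℂ → ℂ} (hu : Integrable u) (hs : ∀ z, z ∉ K → u z = 0) {m : ℕ} {κ : ℂ}
    (h : ∀ᶠ n : ℕ in atTop, (n : ℂ) ^ (m + 1) * ∫ s, u s / ((n : ℂ) - s) = κ) (k : ℕ) :
    ∫ s, u s * s ^ k = if k = m then κ else 0 := by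
  induction k using Nat.strong_induction_on with
  | _ k ih =>
    have h1 := lim_ker hR0 hR (int_mul hK hu hs (continuous_pow k))
      (fun z hz => by rw [hs z hz, zero_mul])
    have h2 : ∀ᶠ n : ℕ in atTop, R < (n : ℝ) :=
      (tendsto_natCast_atTop_atTop (R := ℝ)).eventually_gt_atTop _
    have h3 : ∀ᶠ n : ℕ in atTop, ∫ s, u s * s ^ k * ((n : ℂ) / (n - s)) =
        (n : ℂ) ^ (k + 1) * (∫ s, u s / ((n : ℂ) - s)) -
          if m < k then (n : ℂ) ^ (k - m) * κ else 0 := by
      filter_upwards [h2] with n hn2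
      have hnn : ‖(n : ℂ)‖ = n := by simp
      rw [expand hK hR0 hR hu hs (w := n) (by rw [hnn]; exact hn2) k]
      congr 1
      split_ifs with hmk
      · rw [Finset.sum_eq_single_of_mem m (Finset.mem_range.2 hmk)]
        · rw [ih m hmk, if_pos rfl]
        · intro j hj hjm
          rw [ih j (Finset.mem_range.1 hj), if_neg hjm, mul_zero]
      · refine Finset.sum_eq_zero fun j hj => ?_
        have := Finset.mem_range.1 hj
        rw [ih j this, if_neg (by omega), mul_zero]
    rcases lt_trichotomy k m with hkm | hkm | hkm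
    · rw [if_neg (by omega)]
      refine tendsto_nhds_unique h1 ?_
      have h4 : Tendsto (fun n : ℕ => ((n : ℂ)⁻¹) ^ (m - k) * κ) atTop (𝓝 (0 ^ (m - k) * κ)) :=
        (tendsto_inv_atTop_nhds_zero_nat.pow (m - k)).mul_const κ
      rw [zero_pow (by omega), zero_mul] at h4
      refine h4.congr' ?_
      filter_upwards [h3, h, eventually_gt_atTop 0] with n hn hn1 hn0
      have hne : (n : ℂ) ≠ 0 := by exact_mod_cast hn0.ne'
      rw [hn, if_neg (by omega), sub_zero, ← hn1, ← mul_assoc]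
      congr 1
      have h5 : m + 1 = (m - k) + (k + 1) := by omega
      rw [h5, pow_add, ← mul_assoc, ← mul_pow, inv_mul_cancel₀ hne, one_pow, one_mul]
    · rw [if_pos hkm]
      refine tendsto_nhds_unique h1 (tendsto_const_nhds.congr' ?_)
      filter_upwards [h3, h] with n hn hn1
      rw [hn, if_neg (by omega), sub_zero, hkm, hn1]
    · rw [if_neg (by omega)]
      refine tendsto_nhds_unique h1 (tendsto_const_nhds.congr' ?_)
      filter_upwards [h3, h] with n hn hn1
      have h5 : k + 1 = (k - m) + (m + 1) := by omega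
      rw [hn, if_pos hkm, h5, pow_add, mul_assoc, hn1, sub_self]

end Pool.Agent.X151.LF
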