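import Mathlib
import Pool.Agent.X151.LF.Dens
import Pool.Agent.X151.LF.Ext

/-!
# Bounded bilinear forms on Cauchy kernels are integration against bounded functions
-/

set_option autoImplicit false

open Filter Topology Metric MeasureTheory Set
open scoped ENNReal InnerProductSpace

namespace Pool.Agent.X151.LF

/-- extension of a bounded functional from the range of a linear map -/
theorem extend {M E : Type*} [AddCommGroup M] [Module ℂ M] [NormedAddCommGroup E] [NormedSpace ℂ E]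
    (ι : M →ₗ[ℂ] E) (Λ : M →ₗ[ℂ] ℂ) {C : ℝ} (hC : 0 ≤ C) (h : ∀ x, ‖Λ x‖ ≤ C * ‖ι x‖) :
    ∃ g : E →L[ℂ] ℂ, (∀ x, g (ι x) = Λ x) ∧ ‖g‖ ≤ C := by
  have hker : LinearMap.ker ι ≤ LinearMap.ker Λ := by
    intro p hp
    rw [LinearMap.mem_ker] at hp ⊢
    have := h p
    rw [hp, norm_zero, mul_zero] at this
    exact norm_le_zero_iff.1 this
  set φ : LinearMap.range ι →ₗ[ℂ] ℂ :=
    ((LinearMap.ker ι).liftQ Λ hker) ∘ₗ ι.quotKerEquivRange.symm.toLinearMap with hφ
  have hφp : ∀ p, φ ⟨ι p, ⟨p, rfl⟩⟩ = Λ p := by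
    intro p
    have e : ι.quotKerEquivRange.symm ⟨ι p, ⟨p, rfl⟩⟩ = Submodule.Quotient.mk p := by
      rw [LinearEquiv.symm_apply_eq]
      rfl
    rw [hφ, LinearMap.comp_apply, LinearEquiv.coe_coe, e]
    exact Submodule.liftQ_apply _ _ _
  have hφb : ∀ x, ‖φ x‖ ≤ C * ‖x‖ := by
    rintro ⟨_, ⟨p, rfl⟩⟩
    rw [hφp]
    exact h p
  obtain ⟨g, hg, hgn⟩ := exists_extension_norm_eq (LinearMap.range ι) (φ.mkContinuous C hφb)
  refine ⟨g, fun x => ?_, ?_⟩
  · rw [← hφp x]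
    exact hg ⟨ι x, ⟨x, rfl⟩⟩
  · rw [hgn]
    exact LinearMap.mkContinuous_norm_le φ hC hφb

section Riesz

variable {X : Type*} [MeasurableSpace X] (ρ : Measure X)

theorem riesz_two (g : Lp ℂ 2 ρ →L[ℂ] ℂ) :
    ∃ k : X → ℂ, Measurable k ∧ MemLp k 2 ρ ∧
      ∀ (h : X → ℂ) (hh : MemLp h 2 ρ), g (hh.toLp h) = ∫ x, k x * h x ∂ρ := by
  set k : Lp ℂ 2 ρ := (InnerProductSpace.toDual ℂ (Lp ℂ 2 ρ)).symm g with hk
  have hkm : Measurable (k : X → ℂ) := (Lp.stronglyMeasurable k).measurable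
  refine ⟨fun x => (starRingEnd ℂ) (k x), Complex.continuous_conj.measurable.comp hkm, ?_, ?_⟩
  · refine (Lp.memLp k).congr_norm (Complex.continuous_conj.measurable.comp hkm).aestronglyMeasurable
      (Eventually.of_forall fun x => ?_)
    rw [RCLike.norm_conj]
  · intro h hh
    have h1 : ⟪k, hh.toLp h⟫_ℂ = g (hh.toLp h) := by
      rw [hk, InnerProductSpace.toDual_symm_apply]
    rw [← h1, L2.inner_def]
    refine integral_congr_ae ?_
    filter_upwards [MemLp.coeFn_toLp hh] with x hx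
    rw [hx, RCLike.inner_apply, mul_comm]

theorem func {u : X → ℂ} (hu : MemLp u 2 ρ) : ∃ g : Lp ℂ 2 ρ →L[ℂ] ℂ,
    ∀ (h : X → ℂ) (hh : MemLp h 2 ρ), g (hh.toLp h) = ∫ x, u x * h x ∂ρ := by
  have hu' : MemLp (fun x => (starRingEnd ℂ) (u x)) 2 ρ := by
    refine hu.congr_norm (Complex.continuous_conj.comp_aestronglyMeasurable hu.aestronglyMeasurable)
      (Eventually.of_forall fun x => ?_)
    rw [RCLike.norm_conj]
  refine ⟨innerSL ℂ (hu'.toLp _), fun h hh => ?_⟩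
  rw [innerSL_apply_apply, L2.inner_def]
  refine integral_congr_ae ?_
  filter_upwards [MemLp.coeFn_toLp hh, MemLp.coeFn_toLp hu'] with x hx hx'
  rw [hx, hx', RCLike.inner_apply, RCLike.conj_conj, mul_comm]

theorem norm_sq_toLp {h : X → ℂ} (hh : MemLp h 2 ρ) : ‖hh.toLp h‖ ^ 2 = ∫ x, ‖h x‖ ^ 2 ∂ρ := by
  have h1 : ((‖hh.toLp h‖ ^ 2 : ℝ) : ℂ) = ⟪hh.toLp h, hh.toLp h⟫_ℂ := by
    rw [inner_self_eq_norm_sq_to_K]
    push_cast
    rfl
  have h2 : ⟪hh.toLp h, hh.toLp h⟫_ℂ = ((∫ x, ‖h x‖ ^ 2 ∂ρ : ℝ) : ℂ) := by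
    rw [L2.inner_def, ← integral_complex_ofReal]
    refine integral_congr_ae ?_
    filter_upwards [MemLp.coeFn_toLp hh] with x hx
    rw [hx, inner_self_eq_norm_sq_to_K]
    push_cast
    rfl
  rw [h2] at h1
  exact_mod_cast h1

/-- a bound for a continuous functional on a dense subspace holds everywhere -/
theorem bound_dense {E : Type*} [NormedAddCommGroup E] [NormedSpace ℂ E] (S : Submodule ℂ E)
    (hS : Dense (S : Set E)) (φ : E →L[ℂ] ℂ) {C : ℝ} (h : ∀ x ∈ S, ‖φ x‖ ≤ C * ‖x‖) (x : E) :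
    ‖φ x‖ ≤ C * ‖x‖ := by
  have hc : IsClosed {x : E | ‖φ x‖ ≤ C * ‖x‖} :=
    isClosed_le φ.continuous.norm (continuous_const.mul continuous_norm)
  exact hc.closure_subset_iff.2 h (hS x)

end Riesz

theorem memLp_on {K : Set ℂ} (hK : IsCompact K) {g : ℂ → ℂ} (hg : ContinuousOn g K) (q : ℝ≥0∞) :
    MemLp g q (volume.restrict K) := by
  have : IsFiniteMeasure (volume.restrict K) := ⟨by
    rw [Measure.restrict_apply_univ]
    exact hK.measure_lt_top⟩
  obtain ⟨B, hB⟩ := hK.exists_bound_of_continuousOn hg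
  refine MemLp.of_bound (hg.aestronglyMeasurable hK.measurableSet) B ?_
  rw [ae_restrict_iff' hK.measurableSet]
  exact Eventually.of_forall hB

/-- the points off `K` -/
abbrev Off (K : Set ℂ) : Type := {z : ℂ // z ∉ K}

/-- combinations of Cauchy kernels -/
noncomputable def qf {K : Set ℂ} (a : Off K →₀ ℂ) (s : ℂ) : ℂ := a.sum fun z v => v / (z.1 - s)

theorem qf_eq {K : Set ℂ} (a : Off K →₀ ℂ) (s : ℂ) : qf a s = ∑ z ∈ a.support, a z / (z.1 - s) := rfl

theorem qf_add {K : Set ℂ} (a b : Off K →₀ ℂ) (s : ℂ) : qf (a + b) s = qf a s + qf b s :=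
  Finsupp.sum_add_index' (fun _ => zero_div _) fun _ _ _ => add_div _ _ _

theorem qf_smul {K : Set ℂ} (c : ℂ) (a : Off K →₀ ℂ) (s : ℂ) : qf (c • a) s = c * qf a s := by
  unfold qf
  rw [Finsupp.sum_smul_index (fun _ => zero_div _), Finsupp.mul_sum]
  exact Finsupp.sum_congr fun z _ => by rw [mul_div_assoc]

theorem qf_single {K : Set ℂ} (z : Off K) (v s : ℂ) : qf (Finsupp.single z v) s = v / (z.1 - s) := by
  unfold qf
  rw [Finsupp.sum_single_index (zero_div _)]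

theorem qf_cont {K : Set ℂ} (a : Off K →₀ ℂ) : ContinuousOn (qf a) K := by
  have e : qf a = fun s => ∑ z ∈ a.support, a z / (z.1 - s) := by
    funext s
    exact qf_eq a s
  rw [e]
  refine continuousOn_finsetSum _ fun z _ => ?_
  refine ContinuousOn.div continuousOn_const (by fun_prop) fun s hs h => ?_
  exact z.2 (by rwa [sub_eq_zero.1 h])

/-- the class of a combination of Cauchy kernels in `L²(K)` -/
noncomputable def io {K : Set ℂ} (hK : IsCompact K) :
    (Off K →₀ ℂ) →ₗ[ℂ] Lp ℂ 2 (volume.restrict K) where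
  toFun a := (memLp_on hK (qf_cont a) 2).toLp (qf a)
  map_add' a b := by
    rw [← MemLp.toLp_add]
    refine MemLp.toLp_congr _ _ (Eventually.of_forall fun s => ?_)
    exact qf_add a b s
  map_smul' c a := by
    rw [RingHom.id_apply, ← MemLp.toLp_const_smul]
    refine MemLp.toLp_congr _ _ (Eventually.of_forall fun s => ?_)
    rw [qf_smul]
    rfl

theorem norm_io {K : Set ℂ} (hK : IsCompact K) (a : Off K →₀ ℂ) :
    ‖io hK a‖ ^ 2 = ∫ s in K, ‖qf a s‖ ^ 2 := norm_sq_toLp _ (memLp_on hK (qf_cont a) 2)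

/-- the functional given by the values of `V` -/
noncomputable def vf {K : Set ℂ} (V : ℂ → ℂ) : (Off K →₀ ℂ) →ₗ[ℂ] ℂ where
  toFun a := a.sum fun z v => v * -V z.1
  map_add' a b := Finsupp.sum_add_index' (fun _ => zero_mul _) fun _ _ _ => add_mul _ _ _
  map_smul' c a := by
    rw [RingHom.id_apply, smul_eq_mul, Finsupp.sum_smul_index (fun _ => zero_mul _), Finsupp.mul_sum]
    exact Finsupp.sum_congr fun z _ => by rw [mul_assoc]

theorem vf_single {K : Set ℂ} (V : ℂ → ℂ) (z : Off K) (v : ℂ) :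
    vf V (Finsupp.single z v) = v * -V z.1 := by
  change (Finsupp.single z v).sum (fun z v => v * -V z.1) = _
  rw [Finsupp.sum_single_index (zero_mul _)]

theorem vf_eq {K : Set ℂ} (V : ℂ → ℂ) (a : Off K →₀ ℂ) : vf V a = ∑ z ∈ a.support, a z * -V z.1 := rfl

end Pool.Agent.X151.LF
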