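import Mathlib
import Pool.Agent.X151.LF.Hil
import Pool.Agent.X151.LF.Far

/-!
# Bounded bilinear forms on Cauchy kernels are integration against bounded functions
-/

set_option autoImplicit false

open Filter Topology Metric MeasureTheory Set
open scoped ENNReal InnerProductSpace

namespace Pool.Agent.X151.LF

variable {K : Set ℂ}

/-- combinations of kernels with poles of large modulus -/
noncomputable def farS (hK : IsCompact K) (R₁ : ℝ) : Submodule ℂ (Lp ℂ 2 (volume.restrict K)) :=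
  (Finsupp.supported ℂ ℂ {z : Off K | R₁ < ‖z.1‖}).map (io hK)

theorem exists_R (hK : IsCompact K) : ∃ R : ℝ, 0 ≤ R ∧ ∀ s ∈ K, ‖s‖ ≤ R := by
  obtain ⟨R, hR⟩ := hK.isBounded.exists_norm_le
  exact ⟨max R 0, le_max_right _ _, fun s hs => (hR s hs).trans (le_max_left _ _)⟩

theorem finite_K (hK : IsCompact K) : IsFiniteMeasure (volume.restrict K) := ⟨by
  rw [Measure.restrict_apply_univ]
  exact hK.measure_lt_top⟩

theorem farS_dense (hK : IsCompact K) (hKc : IsConnected Kᶜ) (hint : interior K = ∅) (R₁ : ℝ) :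
    Dense (farS hK R₁ : Set (Lp ℂ 2 (volume.restrict K))) := by
  have := finite_K hK
  rw [Submodule.dense_iff_topologicalClosure_eq_top, Submodule.topologicalClosure_eq_top_iff,
    Submodule.eq_bot_iff]
  intro x hx
  rw [Submodule.mem_orthogonal'] at hx
  obtain ⟨R, hR0, hR⟩ := exists_R hK
  set v : ℂ → ℂ := K.indicator fun s => (starRingEnd ℂ) (x s) with hv
  have hxi : IntegrableOn (fun s => (starRingEnd ℂ) (x s)) K := by
    have h1 : Integrable (x : ℂ → ℂ) (volume.restrict K) :=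
      memLp_one_iff_integrable.1 (memLp_down _ (Lp.memLp x))
    refine h1.congr' (Complex.continuous_conj.comp_aestronglyMeasurable h1.aestronglyMeasurable)
      (Eventually.of_forall fun s => ?_)
    exact (RCLike.norm_conj _).symm
  have hvi : Integrable v := (integrable_indicator_iff hK.measurableSet).2 hxi
  have hvs : ∀ z, z ∉ K → v z = 0 := fun z hz => indicator_of_notMem hz _
  have h1 : ∀ᶠ n : ℕ in atTop, ∫ s, v s / ((n : ℂ) - s) = 0 := by
    have h2 : ∀ᶠ n : ℕ in atTop, max R R₁ < (n : ℝ) :=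
      (tendsto_natCast_atTop_atTop (R := ℝ)).eventually_gt_atTop _
    filter_upwards [h2] with n hn
    have hnn : ‖(n : ℂ)‖ = n := by simp
    have hnK : (n : ℂ) ∉ K := by
      intro hmem
      have := hR _ hmem
      rw [hnn] at this
      linarith [le_max_left R R₁]
    have h3 := hx (io hK (Finsupp.single ⟨(n : ℂ), hnK⟩ 1)) ⟨_, ?_, rfl⟩
    · rw [L2.inner_def] at h3
      rw [← h3, ← integral_indicator hK.measurableSet]
      have h4 : ∀ᵐ s, s ∈ K → (io hK (Finsupp.single ⟨(n : ℂ), hnK⟩ 1) : ℂ → ℂ) s = 1 / ((n : ℂ) - s) := by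
        rw [← ae_restrict_iff' hK.measurableSet]
        filter_upwards [MemLp.coeFn_toLp (memLp_on hK (qf_cont (Finsupp.single ⟨(n : ℂ), hnK⟩ 1)) 2)] with s hs
        rw [qf_single] at hs
        exact hs
      refine integral_congr_ae ?_
      filter_upwards [h4] with s hs
      by_cases hsK : s ∈ K
      · rw [indicator_of_mem hsK, hs hsK, hv, indicator_of_mem hsK, RCLike.inner_apply]
        ring
      · rw [indicator_of_notMem hsK, hvs s hsK, zero_div]
    · rw [SetLike.mem_coe, Finsupp.mem_supported]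
      intro z hz
      have h5 := Finsupp.support_single_subset hz
      rw [Finset.mem_singleton] at h5
      rw [h5]
      change R₁ < ‖(n : ℂ)‖
      rw [hnn]
      exact (le_max_right R R₁).trans_lt hn
  have h2 := ae_zero hK hKc hint hvi hvs (moments_zero hK hR0 hR hvi hvs h1)
  rw [Lp.eq_zero_iff_ae_eq_zero, EventuallyEq, ae_restrict_iff' hK.measurableSet]
  filter_upwards [h2] with s hs hsK
  rw [hv, indicator_of_mem hsK] at hs
  rw [Pi.zero_apply]
  exact (map_eq_zero (starRingEnd ℂ)).1 hs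

theorem dslope_ne {f : ℂ → ℂ} {a b : ℂ} (h : b ≠ a) : dslope f a b = (f b - f a) / (b - a) := by
  rw [dslope_of_ne _ h, slope_def_field]

/-- the functional `V` is bounded in `L²(K)` -/
theorem one_bound (hK : IsCompact K) {V : ℂ → ℂ} {C : ℝ} (hC : 0 ≤ C)
    (hB : ∀ a b : Off K →₀ ℂ, ‖a.sum fun z v => b.sum fun w v' => v * v' * dslope V w.1 z.1‖ ≤
      C * ‖io hK a‖ * ‖io hK b‖)
    (hV : Tendsto (fun n : ℕ => V n) atTop (𝓝 0)) (a : Off K →₀ ℂ) :
    ‖vf V a‖ ≤ C * √(volume.real K) * ‖io hK a‖ := by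
  have := finite_K hK
  obtain ⟨R, hR0, hR⟩ := exists_R hK
  have h1 : Tendsto (fun n : ℕ => ‖∑ z ∈ a.support, a z * ((n : ℂ) * dslope V (n : ℂ) z.1)‖) atTop
      (𝓝 ‖vf V a‖) := by
    rw [vf_eq]
    refine Tendsto.norm (tendsto_finsetSum _ fun z _ => Tendsto.const_mul _ ?_)
    have h2 : Tendsto (fun n : ℕ => -(V z.1 - V n) * ((n : ℂ) / (n - z.1))) atTop
        (𝓝 (-(V z.1 - 0) * 1)) := ((tendsto_const_nhds.sub hV).neg).mul (ker_tendsto z.1)
    rw [sub_zero, mul_one] at h2
    refine h2.congr' ?_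
    have h3 : ∀ᶠ n : ℕ in atTop, ‖z.1‖ < (n : ℝ) :=
      (tendsto_natCast_atTop_atTop (R := ℝ)).eventually_gt_atTop _
    filter_upwards [h3] with n hn
    have hnn : ‖(n : ℂ)‖ = n := by simp
    have hne : z.1 ≠ (n : ℂ) := by
      intro h
      rw [h, hnn] at hn
      exact lt_irrefl _ hn
    rw [dslope_ne hne]
    have h4 : z.1 - (n : ℂ) ≠ 0 := sub_ne_zero.2 hne
    have h5 : (n : ℂ) - z.1 ≠ 0 := sub_ne_zero.2 hne.symm
    field_simp
    ring
  have h6 : Tendsto (fun n : ℕ => (n : ℝ) / (n - R)) atTop (𝓝 1) := by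
    have h7 := ((Complex.continuous_re.tendsto _).comp (ker_tendsto (R : ℂ)))
    rw [Complex.one_re] at h7
    refine h7.congr fun n => ?_
    have : ((n : ℂ) / (n - (R : ℂ))) = (((n : ℝ) / (n - R) : ℝ) : ℂ) := by push_cast; rfl
    rw [Function.comp_apply, this, Complex.ofReal_re]
  have h8 : Tendsto (fun n : ℕ => C * ‖io hK a‖ * ((n : ℝ) / (n - R) * √(volume.real K))) atTop
      (𝓝 (C * ‖io hK a‖ * (1 * √(volume.real K)))) :=
    (h6.mul_const _).const_mul _
  have h9 : C * ‖io hK a‖ * (1 * √(volume.real K)) = C * √(volume.real K) * ‖io hK a‖ := by ring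
  rw [h9] at h8
  refine le_of_tendsto_of_tendsto h1 h8 ?_
  have h2 : ∀ᶠ n : ℕ in atTop, R < (n : ℝ) :=
    (tendsto_natCast_atTop_atTop (R := ℝ)).eventually_gt_atTop _
  filter_upwards [h2] with n hn
  have hnn : ‖(n : ℂ)‖ = n := by simp
  have hnK : (n : ℂ) ∉ K := by
    intro hmem
    have := hR _ hmem
    rw [hnn] at this
    linarith
  set b : Off K →₀ ℂ := Finsupp.single ⟨(n : ℂ), hnK⟩ (n : ℂ) with hb
  have h3 := hB a b
  have e1 : (a.sum fun z v => b.sum fun w v' => v * v' * dslope V w.1 z.1) =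
      ∑ z ∈ a.support, a z * ((n : ℂ) * dslope V (n : ℂ) z.1) := by
    refine Finset.sum_congr rfl fun z _ => ?_
    beta_reduce
    rw [hb, Finsupp.sum_single_index (by ring)]
    ring
  rw [e1] at h3
  refine h3.trans (mul_le_mul_of_nonneg_left ?_ (by positivity))
  have hq : 0 ≤ (n : ℝ) / (n - R) := div_nonneg (Nat.cast_nonneg n) (by linarith)
  refine le_of_sq_le_sq ?_ (by positivity)
  rw [norm_io, mul_pow, Real.sq_sqrt measureReal_nonneg]
  have h10 : ∫ s in K, ‖qf b s‖ ^ 2 ≤ ∫ s in K, ((n : ℝ) / (n - R)) ^ 2 := by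
    refine setIntegral_mono_on ?_ (integrable_const _) hK.measurableSet fun s hs => ?_
    · exact ((qf_cont b).norm.pow 2).integrableOn_compact hK
    · rw [hb, qf_single]
      refine pow_le_pow_left₀ (norm_nonneg _) ?_ 2
      have := ker_le (R := R) (w := (n : ℂ)) (s := s) (by rw [hnn]; exact hn) (hR s hs)
      rwa [hnn] at this
  rw [setIntegral_const, smul_eq_mul, mul_comm] at h10
  exact h10

end Pool.Agent.X151.LF
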