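import Mathlib
import Pool.Agent.X151.LF.Bil

/-!
# The representing function of a bounded bilinear form on Cauchy kernels
-/

set_option autoImplicit false

open Filter Topology Metric MeasureTheory Set
open scoped ENNReal InnerProductSpace

namespace Pool.Agent.X151.LF

variable {K : Set ℂ}

theorem int_on (hK : IsCompact K) {k : ℂ → ℂ} (hk : MemLp k 2 (volume.restrict K)) {g : ℂ → ℂ}
    (hg : ContinuousOn g K) : IntegrableOn (fun s => k s * g s) K :=
  hk.integrable_mul (memLp_on hK hg 2)

theorem cker (z : Off K) : ContinuousOn (fun s : ℂ => 1 / (z.1 - s)) K := by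
  refine ContinuousOn.div continuousOn_const (by fun_prop) fun s hs h => ?_
  exact z.2 (by rwa [sub_eq_zero.1 h])

/-- the pairing of two kernels -/
theorem pair_ker (hK : IsCompact K) {V : ℂ → ℂ} {k : ℂ → ℂ} (hk : MemLp k 2 (volume.restrict K))
    (h1 : ∀ z : Off K, ∫ s in K, k s * (1 / (z.1 - s)) = -V z.1) {z w : Off K} (hzw : z ≠ w) :
    ∫ s in K, k s * (1 / (z.1 - s) * (1 / (w.1 - s))) = dslope V w.1 z.1 := by
  have hne : z.1 ≠ w.1 := fun h => hzw (Subtype.ext h)
  have h2 : w.1 - z.1 ≠ 0 := sub_ne_zero.2 hne.symm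
  have e : ∀ s ∈ K, k s * (1 / (z.1 - s) * (1 / (w.1 - s))) =
      (w.1 - z.1)⁻¹ * (k s * (1 / (z.1 - s)) - k s * (1 / (w.1 - s))) := by
    intro s hs
    have h3 : z.1 - s ≠ 0 := fun h => z.2 (by rwa [sub_eq_zero.1 h])
    have h4 : w.1 - s ≠ 0 := fun h => w.2 (by rwa [sub_eq_zero.1 h])
    field_simp
    ring
  rw [setIntegral_congr_fun hK.measurableSet e, integral_const_mul,
    integral_sub (int_on hK hk (cker z)) (int_on hK hk (cker w)), h1, h1, dslope_ne hne]
  have h5 : z.1 - w.1 ≠ 0 := sub_ne_zero.2 hne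
  field_simp
  ring

/-- the pairing of two combinations of kernels with different poles -/
theorem pair (hK : IsCompact K) {V : ℂ → ℂ} {k : ℂ → ℂ} (hk : MemLp k 2 (volume.restrict K))
    (h1 : ∀ z : Off K, ∫ s in K, k s * (1 / (z.1 - s)) = -V z.1) {a b : Off K →₀ ℂ}
    (hab : ∀ z ∈ a.support, z ∉ b.support) :
    ∫ s in K, k s * (qf a s * qf b s) =
      a.sum fun z v => b.sum fun w v' => v * v' * dslope V w.1 z.1 := by
  have hc : ∀ z w : Off K, ContinuousOn (fun s : ℂ => 1 / (z.1 - s) * (1 / (w.1 - s))) K :=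
    fun z w => (cker z).mul (cker w)
  have e : ∀ s, k s * (qf a s * qf b s) = ∑ z ∈ a.support, ∑ w ∈ b.support,
      a z * b w * (k s * (1 / (z.1 - s) * (1 / (w.1 - s)))) := by
    intro s
    rw [qf_eq, qf_eq, Finset.sum_mul_sum, Finset.mul_sum]
    refine Finset.sum_congr rfl fun z _ => ?_
    rw [Finset.mul_sum]
    refine Finset.sum_congr rfl fun w _ => ?_
    ring
  rw [integral_congr_ae (Eventually.of_forall e), integral_finsetSum]
  · refine Finset.sum_congr rfl fun z hz => ?_
    rw [integral_finsetSum]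
    · refine Finset.sum_congr rfl fun w hw => ?_
      have hzw : z ≠ w := by
        rintro rfl
        exact hab z hz hw
      rw [integral_const_mul, pair_ker hK hk h1 hzw]
    · exact fun w _ => (int_on hK hk (hc z w)).const_mul _
  · exact fun z _ => integrable_finsetSum _ fun w _ => (int_on hK hk (hc z w)).const_mul _

/-- **a bilinear form on Cauchy kernels that is bounded in `L²(K)` is integration against a bounded function** -/
theorem bil (hK : IsCompact K) (hKc : IsConnected Kᶜ) (hint : interior K = ∅) {V : ℂ → ℂ} {C : ℝ}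
    (hC : 0 ≤ C)
    (hB : ∀ a b : Off K →₀ ℂ, ‖a.sum fun z v => b.sum fun w v' => v * v' * dslope V w.1 z.1‖ ≤
      C * ‖io hK a‖ * ‖io hK b‖)
    (hV : Tendsto (fun n : ℕ => V n) atTop (𝓝 0)) :
    ∃ μ : ℂ → ℂ, Measurable μ ∧ (∀ z, ‖μ z‖ ≤ C) ∧ (∀ z, z ∉ K → μ z = 0) ∧
      ∀ z, z ∉ K → ∫ s, μ s * (1 / (z - s)) = -V z := by
  have := finite_K hK
  obtain ⟨g, hg, -⟩ := extend (io hK) (vf V) (C := C * √(volume.real K)) (by positivity)
    (one_bound hK hC hB hV)
  obtain ⟨k, hkm, hk, hkr⟩ := riesz_two (volume.restrict K) g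
  have h1 : ∀ z : Off K, ∫ s in K, k s * (1 / (z.1 - s)) = -V z.1 := by
    intro z
    have h2 := hg (Finsupp.single z 1)
    rw [vf_single, one_mul] at h2
    rw [← h2]
    have h3 := hkr _ (memLp_on hK (qf_cont (Finsupp.single z 1)) 2)
    simp only [qf_single] at h3
    exact h3.symm
  -- the product with a combination of kernels
  have h2 : ∀ (a : Off K →₀ ℂ) (h : ℂ → ℂ) (hh : MemLp h 2 (volume.restrict K)),
      ‖∫ s in K, k s * qf a s * h s‖ ≤ C * ‖io hK a‖ * ‖hh.toLp h‖ := by
    intro a h hh
    obtain ⟨B, hB'⟩ := hK.exists_bound_of_continuousOn (qf_cont a)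
    have hka : MemLp (fun s => k s * qf a s) 2 (volume.restrict K) := by
      refine MemLp.of_le_mul (c := B) hk
        (hk.aestronglyMeasurable.mul (memLp_on hK (qf_cont a) 2).aestronglyMeasurable) ?_
      rw [ae_restrict_iff' hK.measurableSet]
      refine Eventually.of_forall fun s hs => ?_
      rw [norm_mul, mul_comm]
      exact mul_le_mul_of_nonneg_right (hB' s hs) (norm_nonneg _)
    obtain ⟨φ, hφ⟩ := func (volume.restrict K) hka
    obtain ⟨R₁, hR₁⟩ : ∃ R₁ : ℝ, ∀ z ∈ a.support, ‖z.1‖ ≤ R₁ := by
      obtain ⟨R₁, hR₁⟩ := (a.support.image fun z => ‖z.1‖).bddAbove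
      exact ⟨R₁, fun z hz => hR₁ (Finset.mem_coe.2 (Finset.mem_image_of_mem _ hz))⟩
    have h3 := bound_dense (farS hK R₁) (farS_dense hK hKc hint R₁) φ (C := C * ‖io hK a‖) ?_
      (hh.toLp h)
    · rwa [hφ h hh] at h3
    · rintro _ ⟨b, hb, rfl⟩
      rw [SetLike.mem_coe, Finsupp.mem_supported] at hb
      have h4 : φ (io hK b) = ∫ s in K, k s * qf a s * qf b s := hφ _ (memLp_on hK (qf_cont b) 2)
      have h5 : ∫ s in K, k s * qf a s * qf b s = ∫ s in K, k s * (qf a s * qf b s) :=
        integral_congr_ae (Eventually.of_forall fun s => mul_assoc _ _ _)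
      rw [h4, h5, pair hK hk h1]
      · exact hB a b
      · intro z hz hzb
        have h6 : R₁ < ‖z.1‖ := hb hzb
        linarith [hR₁ z hz]
  have h3 : ∀ (h : ℂ → ℂ) (hh : MemLp h 2 (volume.restrict K)) (u : ℂ → ℂ)
      (hu : MemLp u 2 (volume.restrict K)), (∃ B, ∀ s, ‖h s‖ ≤ B) →
      ‖∫ s in K, k s * h s * u s‖ ≤ C * ‖hh.toLp h‖ * ‖hu.toLp u‖ := by
    intro h hh u hu hBh
    obtain ⟨B, hBh⟩ := hBh
    have hkh : MemLp (fun s => k s * h s) 2 (volume.restrict K) := by
      refine MemLp.of_le_mul (c := B) hk (hk.aestronglyMeasurable.mul hh.aestronglyMeasurable) ?_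
      refine Eventually.of_forall fun s => ?_
      rw [norm_mul, mul_comm]
      exact mul_le_mul_of_nonneg_right (hBh s) (norm_nonneg _)
    obtain ⟨φ, hφ⟩ := func (volume.restrict K) hkh
    have h3 := bound_dense (farS hK 0) (farS_dense hK hKc hint 0) φ (C := C * ‖hh.toLp h‖) ?_
      (hu.toLp u)
    · rwa [hφ u hu] at h3
    · rintro _ ⟨a, -, rfl⟩
      have h4 : φ (io hK a) = ∫ s in K, k s * h s * qf a s := hφ _ (memLp_on hK (qf_cont a) 2)
      have h5 : ∫ s in K, k s * h s * qf a s = ∫ s in K, k s * qf a s * h s :=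
        integral_congr_ae (Eventually.of_forall fun s => by beta_reduce; ring)
      rw [h4, h5]
      refine (h2 a h hh).trans (le_of_eq ?_)
      ring
  -- the function is bounded
  set A : Set ℂ := {s | C < ‖k s‖} with hA
  have hAm : MeasurableSet A := measurableSet_lt measurable_const hkm.norm
  have hnull : (volume.restrict K) A = 0 := by
    set h : ℂ → ℂ := A.indicator fun s => (starRingEnd ℂ) (k s) / (‖k s‖ : ℂ) with hh
    have hhm : Measurable h := by
      refine Measurable.indicator ?_ hAm
      exact (Complex.continuous_conj.measurable.comp hkm).div (Complex.measurable_ofReal.comp hkm.norm)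
    have hb : ∀ s, ‖h s‖ ≤ 1 := by
      intro s
      rw [hh]
      by_cases hs : s ∈ A
      · rw [indicator_of_mem hs, norm_div, RCLike.norm_conj, Complex.norm_real, norm_norm]
        exact div_self_le_one _
      · rw [indicator_of_notMem hs, norm_zero]
        exact zero_le_one
    have hL : MemLp h 2 (volume.restrict K) :=
      MemLp.of_bound hhm.aestronglyMeasurable 1 (Eventually.of_forall hb)
    set u : ℂ → ℂ := A.indicator fun _ => 1 with hu
    have hum : Measurable u := measurable_const.indicator hAm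
    have hub : ∀ s, ‖u s‖ ≤ 1 := by
      intro s
      rw [hu]
      by_cases hs : s ∈ A
      · rw [indicator_of_mem hs, norm_one]
      · rw [indicator_of_notMem hs, norm_zero]
        exact zero_le_one
    have hU : MemLp u 2 (volume.restrict K) :=
      MemLp.of_bound hum.aestronglyMeasurable 1 (Eventually.of_forall hub)
    have hkint : Integrable (fun s => ‖k s‖) (volume.restrict K) :=
      (memLp_one_iff_integrable.1 (memLp_down _ hk)).norm
    have e1 : ∀ s, k s * h s * u s = ((A.indicator (fun s => ‖k s‖) s : ℝ) : ℂ) := by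
      intro s
      rw [hh, hu]
      by_cases hs : s ∈ A
      · have hs0 : 0 < ‖k s‖ := hC.trans_lt hs
        rw [indicator_of_mem hs, indicator_of_mem hs, indicator_of_mem hs, mul_one, mul_div_assoc',
          Complex.mul_conj, Complex.normSq_eq_norm_sq]
        push_cast
        have : ((‖k s‖ : ℝ) : ℂ) ≠ 0 := by exact_mod_cast hs0.ne'
        field_simp
      · rw [indicator_of_notMem hs, indicator_of_notMem hs, indicator_of_notMem hs, mul_zero,
          Complex.ofReal_zero]
    have h4 := h3 h hL u hU ⟨1, hb⟩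
    rw [integral_congr_ae (Eventually.of_forall e1), integral_complex_ofReal, Complex.norm_real,
      integral_indicator hAm, Real.norm_of_nonneg (integral_nonneg fun s => norm_nonneg _)] at h4
    have h5 : ∀ (v : ℂ → ℂ) (hv : MemLp v 2 (volume.restrict K)), (∀ s, s ∈ A → ‖v s‖ ≤ 1) →
        (∀ s, s ∉ A → v s = 0) → ‖hv.toLp v‖ ≤ √((volume.restrict K).real A) := by
      intro v hv hv1 hv0
      refine Real.le_sqrt_of_sq_le ?_
      rw [norm_sq_toLp]
      have h6 : ∫ s in K, ‖v s‖ ^ 2 ≤ ∫ s in K, A.indicator (fun _ => (1 : ℝ)) s := by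
        refine integral_mono_of_nonneg (Eventually.of_forall fun s => by positivity)
          ((integrable_const 1).indicator hAm) (Eventually.of_forall fun s => ?_)
        beta_reduce
        by_cases hs : s ∈ A
        · rw [indicator_of_mem hs]
          exact pow_le_one₀ (norm_nonneg _) (hv1 s hs)
        · rw [indicator_of_notMem hs, hv0 s hs, norm_zero]
          norm_num
      rwa [integral_indicator hAm, setIntegral_const, smul_eq_mul, mul_one] at h6
    have h6 : C * ‖hL.toLp h‖ * ‖hU.toLp u‖ ≤ C * (volume.restrict K).real A := by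
      have h7 := h5 h hL (fun s _ => hb s) (fun s hs => by rw [hh]; exact indicator_of_notMem hs _)
      have h8 := h5 u hU (fun s _ => hub s) (fun s hs => by rw [hu]; exact indicator_of_notMem hs _)
      calc C * ‖hL.toLp h‖ * ‖hU.toLp u‖
          = C * (‖hL.toLp h‖ * ‖hU.toLp u‖) := mul_assoc _ _ _
        _ ≤ C * (√((volume.restrict K).real A) * √((volume.restrict K).real A)) :=
            mul_le_mul_of_nonneg_left (mul_le_mul h7 h8 (norm_nonneg _) (Real.sqrt_nonneg _)) hC
        _ = C * (volume.restrict K).real A := by rw [Real.mul_self_sqrt measureReal_nonneg]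
    have h7 : ∫ s in A, (‖k s‖ - C) ∂(volume.restrict K) ≤ 0 := by
      rw [integral_sub hkint.integrableOn (integrable_const C), setIntegral_const, smul_eq_mul]
      linarith [h4.trans h6, mul_comm C ((volume.restrict K).real A)]
    by_contra hne
    have hpos : 0 < ∫ s in A, (‖k s‖ - C) ∂(volume.restrict K) := by
      rw [setIntegral_pos_iff_support_of_nonneg_ae]
      · refine lt_of_lt_of_le (pos_iff_ne_zero.2 hne) (measure_mono fun s hs => ⟨?_, hs⟩)
        rw [Function.mem_support]
        have : C < ‖k s‖ := hs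
        linarith
      · rw [EventuallyLE, ae_restrict_iff' hAm]
        refine Eventually.of_forall fun s hs => ?_
        have : C < ‖k s‖ := hs
        simp only [Pi.zero_apply]
        linarith
      · exact (hkint.sub (integrable_const C)).integrableOn
    linarith
  refine ⟨(K \ A).indicator k, hkm.indicator (hK.measurableSet.diff hAm), ?_, ?_, ?_⟩
  · intro z
    by_cases hz : z ∈ K \ A
    · rw [indicator_of_mem hz]
      exact not_lt.1 hz.2
    · rw [indicator_of_notMem hz, norm_zero]
      exact hC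
  · intro z hz
    exact indicator_of_notMem (fun h => hz h.1) _
  · intro z hz
    rw [← h1 ⟨z, hz⟩, ← integral_indicator hK.measurableSet]
    refine integral_congr_ae ?_
    have h8 : ∀ᵐ s, s ∈ K → s ∉ A := by
      rw [← ae_restrict_iff' hK.measurableSet, ae_iff]
      simpa using hnull
    filter_upwards [h8] with s hs
    by_cases hsK : s ∈ K
    · have hsm : s ∈ K \ A := ⟨hsK, hs hsK⟩
      rw [indicator_of_mem hsm, indicator_of_mem hsK]
    · have hsm : s ∉ K \ A := fun h => hsK h.1
      rw [indicator_of_notMem hsm, indicator_of_notMem hsK, zero_mul]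

end Pool.Agent.X151.LF
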