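import Mathlib
import Pool.Agent.X151.LF.Core
import Pool.Agent.X151.LF.Semi
import Pool.Agent.X151.LF.Far

/-!
# The Cauchy transform of a pulled back differential
-/

set_option autoImplicit false

open Filter Topology Metric MeasureTheory Set

namespace Pool.Agent.X151.LF

theorem int_mulOn {K : Set ℂ} (hK : IsCompact K) {u : ℂ → ℂ} (hu : Integrable u)
    (hs : ∀ z, z ∉ K → u z = 0) {g : ℂ → ℂ} (hg : ContinuousOn g K) :
    Integrable (fun z => u z * g z) := by
  have h1 : IntegrableOn (fun z => u z * g z) K := hu.integrableOn.mul_continuousOn hg hK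
  exact h1.integrable_of_forall_notMem_eq_zero fun z hz => by rw [hs z hz, zero_mul]

/-- rotations annihilate the moments with a rotation invariant weight -/
theorem weight_off {d : ℕ} (hd : 2 ≤ d) (c : ℂ) (μ Ψ : ℂ → ℂ)
    (hΨ : ∀ ω z : ℂ, ω ^ d = 1 → Ψ (ω * z) = Ψ z) {k : ℕ} (hk : ¬ d ∣ k + 2) :
    ∫ z, pb d c μ z * (z ^ k * Ψ z) = 0 := by
  set ω : ℂ := Complex.exp (2 * Real.pi * Complex.I / d) with hω
  have hprim : IsPrimitiveRoot ω d := Complex.isPrimitiveRoot_exp d (by omega)
  have hn : ‖ω‖ = 1 := hprim.norm'_eq_one (by omega)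
  have hω0 : ω ≠ 0 := by
    intro h
    rw [h, norm_zero] at hn
    exact zero_ne_one hn
  have hd1 : ω ^ d = 1 := hprim.pow_eq_one
  have hconj : (starRingEnd ℂ) ω = ω⁻¹ := by
    rw [Complex.inv_def, Complex.normSq_eq_norm_sq, hn]
    simp
  have h1 : ∀ z, pb d c μ (ω * z) * ((ω * z) ^ k * Ψ (ω * z)) =
      ω ^ (k + 2) * (pb d c μ z * (z ^ k * Ψ z)) := by
    intro z
    rw [hΨ ω z hd1]
    unfold pb
    rw [deriv_f, deriv_f]
    have e : f d c (ω * z) = f d c z := by
      unfold f
      rw [mul_pow, hd1, one_mul]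
    rw [e]
    by_cases hz : z = 0
    · rw [hz, mul_zero]
      have : (0 : ℂ) ^ (d - 1) = 0 := zero_pow (by omega)
      rw [this, mul_zero, div_zero, zero_mul, mul_zero]
    have hz1 : z ^ (d - 1) ≠ 0 := pow_ne_zero _ hz
    have hdc : (d : ℂ) ≠ 0 := by
      have : d ≠ 0 := by omega
      exact_mod_cast this
    have hω1 : ω ^ (d - 1) ≠ 0 := pow_ne_zero _ hω0
    have hinv : ω ^ (d - 1) = ω⁻¹ := by
      refine eq_inv_of_mul_eq_one_left ?_
      rw [← pow_succ]
      have : d - 1 + 1 = d := by omega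
      rw [this, hd1]
    rw [mul_pow, mul_pow, hinv, map_mul, map_mul, map_mul, map_inv₀, hconj, inv_inv]
    field_simp
    ring
  have h2 : ∫ z, pb d c μ z * (z ^ k * Ψ z) = ω ^ (k + 2) * ∫ z, pb d c μ z * (z ^ k * Ψ z) := by
    rw [← integral_const_mul, ← int_rot ω hn (fun z => pb d c μ z * (z ^ k * Ψ z))]
    exact integral_congr_ae (Eventually.of_forall h1)
  have h3 : ω ^ (k + 2) ≠ 1 := by
    rw [Ne, hprim.pow_eq_one_iff_dvd]
    exact hk
  have h4 : (1 - ω ^ (k + 2)) * ∫ z, pb d c μ z * (z ^ k * Ψ z) = 0 := by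
    rw [sub_mul, one_mul, ← h2, sub_self]
  rcases mul_eq_zero.1 h4 with h5 | h5
  · exact absurd (sub_eq_zero.1 h5).symm h3
  · exact h5

/-- the main change of variables with a weight -/
theorem weight_rec {d : ℕ} (hd : 2 ≤ d) {c : ℂ} {μ : ℂ → ℂ} {B : ℝ} (h : Bd d c μ B) {z : ℂ}
    (hz : z ∉ K d c) :
    ∫ s, pb d c μ s * (s ^ (2 * d - 2) * (1 / (z ^ d - s ^ d))) =
      (1 / (d : ℂ)) * ∫ u, μ u * (1 / (f d c z - u)) := by
  have hB0 : 0 ≤ B := (norm_nonneg _).trans (h.bound 0)
  have hfz : f d c z ∉ K d c := fun hf => hz (f_mem_iff.1 hf)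
  set R : ℝ := RR c + ‖c‖ with hR
  have hR0 : 0 ≤ R := add_nonneg (RR_pos c).le (norm_nonneg c)
  obtain ⟨δ, hδ, hδK⟩ : ∃ δ : ℝ, 0 < δ ∧ ∀ u ∈ K d c, δ ≤ ‖f d c z - u‖ := by
    have h1 : (K d c)ᶜ ∈ 𝓝 (f d c z) := (isClosed_K hd c).isOpen_compl.mem_nhds hfz
    obtain ⟨δ, hδ, hsub⟩ := Metric.mem_nhds_iff.1 h1
    refine ⟨δ, hδ, fun u hu => ?_⟩
    by_contra hcon
    rw [not_le, ← dist_eq_norm, dist_comm] at hcon
    exact hsub (mem_ball.2 hcon) hu
  set G : ℂ → ℂ := fun u => μ (u + c) * (1 / (z ^ d - u)) with hG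
  have hGm : Measurable G := by
    refine (h.meas.comp (measurable_id.add_const c)).mul ?_
    exact measurable_const.div (measurable_const.sub measurable_id)
  have hG0 : ∀ w, R < ‖w‖ → G w = 0 := by
    intro w hw
    rw [hG]
    beta_reduce
    rw [h.supp _ (not_mem_of_far hd ?_), zero_mul]
    have := norm_sub_norm_le w (-c)
    rw [norm_neg, sub_neg_eq_add] at this
    linarith
  have hGB : ∀ w, ‖G w‖ ≤ B * (1 / δ) := by
    intro w
    rw [hG]
    beta_reduce
    by_cases hw : w + c ∈ K d c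
    · have h2 := hδK _ hw
      have h3 : f d c z - (w + c) = z ^ d - w := by
        unfold f
        ring
      rw [h3] at h2
      rw [norm_mul, norm_div, norm_one]
      exact mul_le_mul (h.bound _) (one_div_le_one_div_of_le hδ h2) (by positivity) hB0
    · rw [h.supp _ hw, zero_mul, norm_zero]
      positivity
  have h1 := pow_change hGm hGB hG0 (show 1 ≤ d by omega)
  have h2 : ∀ s : ℂ, pb d c μ s * (s ^ (2 * d - 2) * (1 / (z ^ d - s ^ d))) =
      G (s ^ d) * ((‖s‖ ^ (2 * (d - 1)) : ℝ) : ℂ) := by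
    intro s
    unfold pb
    rw [deriv_f, hG]
    beta_reduce
    by_cases hs : s = 0
    · rw [hs, norm_zero]
      have e1 : (0 : ℝ) ^ (2 * (d - 1)) = 0 := zero_pow (by omega)
      have e2 : (0 : ℂ) ^ (2 * d - 2) = 0 := zero_pow (by omega)
      rw [e1, e2, Complex.ofReal_zero, zero_mul, mul_zero, mul_zero]
    have hdc : (d : ℂ) ≠ 0 := by
      have : d ≠ 0 := by omega
      exact_mod_cast this
    have hs1 : s ^ (d - 1) ≠ 0 := pow_ne_zero _ hs
    have e3 : ((‖s‖ ^ (2 * (d - 1)) : ℝ) : ℂ) = s ^ (d - 1) * (starRingEnd ℂ) (s ^ (d - 1)) := by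
      rw [Complex.mul_conj, Complex.normSq_eq_norm_sq, norm_pow, ← pow_mul]
      congr 2
      ring
    have e4 : s ^ (2 * d - 2) = s ^ (d - 1) * s ^ (d - 1) := by
      rw [← pow_add]
      congr 1
      omega
    rw [e3, e4, map_mul, Complex.conj_natCast]
    have e5 : f d c s = s ^ d + c := rfl
    rw [e5]
    by_cases h0 : z ^ d - s ^ d = 0
    · rw [h0]
      simp
    · field_simp
  rw [integral_congr_ae (Eventually.of_forall h2), h1]
  congr 1
  have := integral_sub_right_eq_self (μ := volume) G c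
  rw [← this]
  refine integral_congr_ae (Eventually.of_forall fun w => ?_)
  rw [hG]
  beta_reduce
  rw [sub_add_cancel]
  congr 2
  unfold f
  ring

/-- **the functional equation of the Cauchy transform of the pull-back** -/
theorem transform {d : ℕ} (hd : 2 ≤ d) {c : ℂ} {μ : ℂ → ℂ} {B : ℝ} (h : Bd d c μ B) {z : ℂ}
    (hz : z ∉ K d c) :
    deriv (f d c) z * ∫ s, pb d c μ s * (1 / (z - s)) =
      (∫ u, μ u * (1 / (f d c z - u))) + d * ∫ s, pb d c μ s * s ^ (d - 2) := by
  have hp := pb_bd h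
  have hK := isCompact_K hd c
  have hdc : (d : ℂ) ≠ 0 := by
    have : d ≠ 0 := by omega
    exact_mod_cast this
  have hzd : ∀ s ∈ K d c, z ^ d - s ^ d ≠ 0 := by
    intro s hs h0
    have h1 : f d c z = f d c s := by
      unfold f
      rw [sub_eq_zero.1 h0]
    exact hz (f_mem_iff.1 (h1 ▸ f_mem_iff.2 hs))
  have hcont : ContinuousOn (fun s : ℂ => 1 / (z ^ d - s ^ d)) (K d c) :=
    ContinuousOn.div continuousOn_const (by fun_prop) hzd
  have hcontk : ∀ k : ℕ, ContinuousOn (fun s : ℂ => s ^ k * (1 / (z ^ d - s ^ d))) (K d c) :=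
    fun k => (continuous_pow k).continuousOn.mul hcont
  have hinv : ∀ ω s : ℂ, ω ^ d = 1 → 1 / (z ^ d - (ω * s) ^ d) = 1 / (z ^ d - s ^ d) := by
    intro ω s hω
    rw [mul_pow, hω, one_mul]
  -- the kernel is a combination of powers with a rotation invariant weight
  have e1 : ∀ s, pb d c μ s * (1 / (z - s)) = ∑ i ∈ Finset.range d,
      z ^ (d - 1 - i) * (pb d c μ s * (s ^ i * (1 / (z ^ d - s ^ d)))) := by
    intro s
    by_cases hs : s ∈ K d c
    · have h1 : z - s ≠ 0 := by
        intro h0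
        exact hz (by rwa [sub_eq_zero.1 h0])
      have h2 := hzd s hs
      have h3 : (∑ i ∈ Finset.range d, s ^ i * z ^ (d - 1 - i)) * (s - z) = s ^ d - z ^ d :=
        (Commute.all s z).geom_sum₂_mul d
      have h4 : (1 : ℂ) / (z - s) = (∑ i ∈ Finset.range d, s ^ i * z ^ (d - 1 - i)) *
          (1 / (z ^ d - s ^ d)) := by
        rw [mul_one_div, div_eq_div_iff h1 h2, one_mul]
        linear_combination h3
      rw [h4, ← mul_assoc, Finset.mul_sum, Finset.sum_mul]
      exact Finset.sum_congr rfl fun i _ => by ring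
    · rw [hp.supp s hs]
      simp
  have e2 : ∫ s, pb d c μ s * (1 / (z - s)) =
      z * ∫ s, pb d c μ s * (s ^ (d - 2) * (1 / (z ^ d - s ^ d))) := by
    rw [integral_congr_ae (Eventually.of_forall e1), integral_finsetSum]
    · rw [Finset.sum_eq_single_of_mem (d - 2) (Finset.mem_range.2 (by omega))]
      · rw [integral_const_mul]
        have : d - 1 - (d - 2) = 1 := by omega
        rw [this, pow_one]
      · intro i hi hne
        rw [Finset.mem_range] at hi
        rw [integral_const_mul, weight_off hd c μ _ hinv (k := i) ?_, mul_zero]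
        rintro ⟨a, ha⟩
        have ha1 : a = 1 := by
          have h5 : 1 ≤ a := by
            by_contra hcon
            have : a = 0 := by omega
            rw [this] at ha
            omega
          have h6 : a < 2 := by
            by_contra hcon
            have : d * 2 ≤ d * a := Nat.mul_le_mul_left d (by omega)
            omega
          omega
        rw [ha1] at ha
        omega
    · intro i _
      exact (int_mulOn hK (hp.integrable hd) hp.supp (hcontk i)).const_mul _
  have e3 : z ^ d * ∫ s, pb d c μ s * (s ^ (d - 2) * (1 / (z ^ d - s ^ d))) =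
      (∫ s, pb d c μ s * s ^ (d - 2)) +
        ∫ s, pb d c μ s * (s ^ (2 * d - 2) * (1 / (z ^ d - s ^ d))) := by
    rw [← integral_const_mul, ← integral_add]
    · refine integral_congr_ae (Eventually.of_forall fun s => ?_)
      beta_reduce
      by_cases hs : s ∈ K d c
      · have h2 := hzd s hs
        have h3 : s ^ (2 * d - 2) = s ^ (d - 2) * s ^ d := by
          rw [← pow_add]
          congr 1
          omega
        rw [h3]
        field_simp
        ring
      · rw [hp.supp s hs]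
        simp
    · exact int_mulOn hK (hp.integrable hd) hp.supp (continuous_pow _).continuousOn
    · exact int_mulOn hK (hp.integrable hd) hp.supp (hcontk _)
  rw [weight_rec hd h hz] at e3
  rw [e2, deriv_f]
  have h3 : z ^ d = z ^ (d - 1) * z := by
    rw [← pow_succ]
    congr 1
    omega
  have h4 : (d : ℂ) * z ^ (d - 1) * (z * ∫ s, pb d c μ s * (s ^ (d - 2) * (1 / (z ^ d - s ^ d)))) =
      d * (z ^ d * ∫ s, pb d c μ s * (s ^ (d - 2) * (1 / (z ^ d - s ^ d)))) := by
    rw [h3]
    ring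
  rw [h4, e3]
  field_simp
  ring

end Pool.Agent.X151.LF
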