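import Mathlib
import Pool.Agent.X151.LF.Tra
import Pool.Agent.X151.LF.Rep
import Pool.Agent.X151.MK.Level

/-!
# The velocity of the escaping points and the moment functional
-/

set_option autoImplicit false

open Filter Topology Metric MeasureTheory Set

namespace Pool.Agent.X151.LF

open Pool.Agent.X151.MU (Esc V V_orb tendsto_S summable_esc esc_ne_zero far)
open Pool.Agent.W746.LD (orb S P hasDerivAt_orb orb_succ orb_zero P_zero)

theorem esc_iff {d : ℕ} (hd : 2 ≤ d) {c z : ℂ} : z ∉ K d c ↔ Esc d c z := by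
  constructor
  · intro hz
    rw [mem_iff hd] at hz
    push Not at hz
    obtain ⟨N, hN⟩ := hz
    unfold Esc
    rw [← tendsto_norm_atTop_iff_cobounded]
    refine (tendsto_add_atTop_iff_nat N).1 ?_
    have h0 : 0 < ‖(f d c)^[N] z‖ := (RR_pos c).trans hN
    have h1 : Tendsto (fun n : ℕ => 2 ^ n * ‖(f d c)^[N] z‖) atTop atTop :=
      (tendsto_pow_atTop_atTop_of_one_lt (by norm_num : (1 : ℝ) < 2)).atTop_mul_const h0
    refine tendsto_atTop_mono (fun n => ?_) h1
    have h2 := (far_iter hd hN.le n).1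
    have h3 : orb d c z (n + N) = (f d c)^[n] ((f d c)^[N] z) := by
      rw [← Function.iterate_add_apply]
      rfl
    rw [h3]
    exact h2
  · rintro h ⟨B, hB⟩
    unfold Esc at h
    rw [← tendsto_norm_atTop_iff_cobounded] at h
    obtain ⟨n, hn⟩ := (h.eventually_gt_atTop B).exists
    exact absurd (hB n) (not_le.2 hn)

theorem K_eq {d : ℕ} (hd : 2 ≤ d) (c : ℂ) : K d c = Pool.Agent.H713R2.AR.KK d c := by
  ext z
  have h1 : z ∈ Pool.Agent.H713R2.AR.KK d c ↔ ¬ Esc d c z := Iff.rfl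
  rw [h1, ← esc_iff hd, not_not]

theorem multi_iff {d : ℕ} (hd : 2 ≤ d) {c : ℂ} :
    c ∈ N62a1eb23.multibrotSet d ↔ (0 : ℂ) ∈ K d c := by
  have h1 : c ∈ N62a1eb23.multibrotSet d ↔ ¬ Esc d c 0 := Iff.rfl
  rw [h1, ← esc_iff hd, not_not]

/-- the functional equation of the velocity -/
theorem V_f {d : ℕ} (hd : 2 ≤ d) {c z : ℂ} (hc : (0 : ℂ) ∈ K d c) (hz : z ∉ K d c) :
    V d c (f d c z) = deriv (f d c) z * V d c z + 1 := by
  have h1 := V_orb hd ((multi_iff hd).2 hc) ((esc_iff hd).1 hz) 1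
  have h2 : orb d c z 1 = f d c z := rfl
  have h3 : P d c z 1 = d * z ^ (d - 1) := by
    unfold P
    rw [Finset.prod_range_one, orb_zero]
  have h4 : S d c z 1 = 1 := by
    unfold S
    rw [Finset.sum_range_one, P_zero, inv_one]
  rw [h2, h3, h4] at h1
  rw [h1, deriv_f]
  ring

/-- the velocity is bounded near infinity -/
theorem V_far {d : ℕ} (hd : 2 ≤ d) {c z : ℂ} (hc : (0 : ℂ) ∈ K d c) (hz : 3 ≤ ‖z‖) :
    z ∉ K d c ∧ ‖V d c z‖ ≤ 1 / 5 := by
  have hcm := (multi_iff hd).2 hc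
  have hc2 := Pool.Agent.X151.MU.norm_le_two_of_sub hd hcm
  have hesc : Esc d c z := by
    have h1 : z ∉ Pool.Agent.H713R2.AR.EE d c 0 ∨ ‖z‖ = 3 := by
      rcases hz.lt_or_eq with h | h
      · left
        intro hmem
        have : ‖z‖ ≤ 3 := hmem
        linarith
      · right
        exact h.symm
    have h2 : 3 < ‖f d c z‖ := by
      unfold f
      have h3 : ‖z‖ ^ 2 ≤ ‖z‖ ^ d := pow_le_pow_right₀ (by linarith) hd
      have h4 := norm_sub_norm_le (z ^ d) (-c)
      rw [norm_neg, sub_neg_eq_add, norm_pow] at h4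
      nlinarith
    rw [← esc_iff hd]
    intro hmem
    have h5 : f d c z ∈ K d c := f_mem_iff.2 hmem
    rw [K_eq hd] at h5
    have h7 : f d c z ∈ ⋂ j, Pool.Agent.H713R2.AR.EE d c j := by
      rw [Pool.Agent.H713R2.AR.iInter_EE hd hc2]
      exact h5
    have h6 : ‖f d c z‖ ≤ 3 := mem_iInter.1 h7 0
    linarith
  refine ⟨(esc_iff hd).2 hesc, ?_⟩
  have h1 := far hd hc2 hz hesc
  unfold V
  rwa [norm_sub_rev]

theorem V_small {d : ℕ} (hd : 2 ≤ d) {c z : ℂ} (hc : (0 : ℂ) ∈ K d c) (hz : 3 ≤ ‖z‖) :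
    ‖V d c z‖ ≤ 2 / ‖z‖ := by
  obtain ⟨h1, -⟩ := V_far hd hc hz
  have hcm := (multi_iff hd).2 hc
  have hc2 := Pool.Agent.X151.MU.norm_le_two_of_sub hd hcm
  have h2 : 3 ≤ ‖f d c z‖ := by
    unfold f
    have h3 : ‖z‖ ^ 2 ≤ ‖z‖ ^ d := pow_le_pow_right₀ (by linarith) hd
    have h4 := norm_sub_norm_le (z ^ d) (-c)
    rw [norm_neg, sub_neg_eq_add, norm_pow] at h4
    nlinarith
  have h3 := (V_far hd hc h2).2
  rw [V_f hd hc h1] at h3
  have h4 : ‖deriv (f d c) z‖ * ‖V d c z‖ ≤ 6 / 5 := by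
    have h5 := norm_sub_le (deriv (f d c) z * V d c z + 1) 1
    rw [add_sub_cancel_right, norm_mul, norm_one] at h5
    linarith
  have h5 : ‖z‖ ≤ ‖deriv (f d c) z‖ := by
    rw [deriv_f, norm_mul, norm_pow, Complex.norm_natCast]
    have h6 : ‖z‖ ^ 1 ≤ ‖z‖ ^ (d - 1) := pow_le_pow_right₀ (by linarith) (by omega)
    rw [pow_one] at h6
    have h7 : (1 : ℝ) ≤ d := by
      have : 1 ≤ d := by omega
      exact_mod_cast this
    nlinarith [norm_nonneg z]
  rw [le_div_iff₀ (by linarith)]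
  nlinarith [norm_nonneg (V d c z), mul_le_mul_of_nonneg_right h5 (norm_nonneg (V d c z))]

theorem V_zero {d : ℕ} (hd : 2 ≤ d) {c : ℂ} (hc : (0 : ℂ) ∈ K d c) :
    Tendsto (fun n : ℕ => V d c n) atTop (𝓝 0) := by
  have h1 : Tendsto (fun n : ℕ => 2 / (n : ℝ)) atTop (𝓝 0) := tendsto_const_div_atTop_nhds_zero_nat 2
  refine squeeze_zero_norm' ?_ h1
  filter_upwards [eventually_ge_atTop 3] with n hn
  have hnn : ‖(n : ℂ)‖ = n := by simp
  have := V_small hd hc (z := (n : ℂ)) (by rw [hnn]; exact_mod_cast hn)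
  rwa [hnn] at this

/-- the kernel inequality for the velocity -/
theorem kern {d : ℕ} (hd : 2 ≤ d) {c : ℂ} {r : ℝ} (hr : 0 < r)
    (hsub : ∀ c' ∈ ball c r, (0 : ℂ) ∈ K d c') (a b : Off (K d c) →₀ ℂ) :
    ‖a.sum fun z v => b.sum fun w v' => v * v' * dslope (V d c) w.1 z.1‖ ≤
      1 / (Real.pi * r) * ‖io (isCompact_K hd c) a‖ * ‖io (isCompact_K hd c) b‖ := by
  have hpi := Real.pi_pos
  have h1 := Pool.Agent.X151.MK.kernel_ball hd hr
    (fun c' hc' => (multi_iff hd).2 (hsub c' hc')) a.support b.support a (fun z => z.1) b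
    (fun w => w.1) (fun z _ => (esc_iff hd).1 z.2) (fun w _ => (esc_iff hd).1 w.2)
  rw [← K_eq hd] at h1
  have h2 := norm_io (isCompact_K hd c) a
  have h3 := norm_io (isCompact_K hd c) b
  simp only [qf_eq] at h2 h3
  rw [← h2, ← h3] at h1
  have h4 : (a.sum fun z v => b.sum fun w v' => v * v' * dslope (V d c) w.1 z.1) =
      ∑ i ∈ a.support, ∑ k ∈ b.support, a i * b k * dslope (V d c) k.1 i.1 := rfl
  rw [h4]
  refine le_of_sq_le_sq ?_ (by positivity)
  have h5 : (1 / (Real.pi * r) * ‖io (isCompact_K hd c) a‖ * ‖io (isCompact_K hd c) b‖) ^ 2 =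
      (1 / Real.pi * ‖io (isCompact_K hd c) a‖ ^ 2) * (1 / Real.pi * ‖io (isCompact_K hd c) b‖ ^ 2) /
        r ^ 2 := by
    field_simp
  rw [h5, le_div_iff₀ (by positivity), mul_comm]
  exact h1

/-- **in a stable parameter disc the velocity is the Cauchy transform of an invariant differential** -/
theorem stable {d : ℕ} (hd : 2 ≤ d) {c : ℂ} {r : ℝ} (hr : 0 < r)
    (hsub : ∀ c' ∈ ball c r, (0 : ℂ) ∈ K d c') (hint : interior (K d c) = ∅) :
    ∃ μ : ℂ → ℂ, Bd d c μ (d / (Real.pi * r)) ∧ pb d c μ =ᵐ[volume] μ ∧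
      ∫ z, μ z * z ^ (d - 2) = 1 := by
  have hpi := Real.pi_pos
  have hK := isCompact_K hd c
  have hc : (0 : ℂ) ∈ K d c := hsub c (mem_ball_self hr)
  have hdR : (0 : ℝ) < d := by
    have : 0 < d := by omega
    exact_mod_cast this
  have hdC : (d : ℂ) ≠ 0 := by exact_mod_cast hdR.ne'
  obtain ⟨μ₀, hm, hb, hs, hV⟩ := bil hK (compl_connected hd c) hint (V := V d c)
    (C := 1 / (Real.pi * r)) (by positivity) (kern hd hr hsub) (V_zero hd hc)
  set μ : ℂ → ℂ := fun z => d * μ₀ z with hμ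
  have hbd : Bd d c μ (d / (Real.pi * r)) := by
    refine ⟨hm.const_mul _, fun z => ?_, fun z hz => ?_⟩
    · rw [hμ]
      beta_reduce
      rw [norm_mul, Complex.norm_natCast, div_eq_mul_one_div]
      exact mul_le_mul_of_nonneg_left (hb z) hdR.le
    · rw [hμ]
      beta_reduce
      rw [hs z hz, mul_zero]
  have hF : ∀ z, z ∉ K d c → ∫ s, μ s * (1 / (z - s)) = -(d * V d c z) := by
    intro z hz
    have h1 : ∀ s, μ s * (1 / (z - s)) = d * (μ₀ s * (1 / (z - s))) := fun s => by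
      rw [hμ]
      ring
    rw [integral_congr_ae (Eventually.of_forall h1), integral_const_mul, hV z hz]
    ring
  have hp := pb_bd hbd
  set mν : ℂ := ∫ s, pb d c μ s * s ^ (d - 2) with hmν
  have hkey : ∀ z, z ∉ K d c →
      z ^ (d - 1) * ∫ s, (pb d c μ s - μ s) * (1 / (z - s)) = mν - 1 := by
    intro z hz
    have h1 := transform hd hbd hz
    have h2 : f d c z ∉ K d c := fun h => hz (f_mem_iff.1 h)
    rw [hF _ h2, V_f hd hc hz] at h1
    have hcz : ContinuousOn (fun s : ℂ => 1 / (z - s)) (K d c) := cker ⟨z, hz⟩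
    have h3 : ∫ s, (pb d c μ s - μ s) * (1 / (z - s)) =
        (∫ s, pb d c μ s * (1 / (z - s))) - ∫ s, μ s * (1 / (z - s)) := by
      rw [← integral_sub (int_mulOn hK (hp.integrable hd) hp.supp hcz)
        (int_mulOn hK (hbd.integrable hd) hbd.supp hcz)]
      refine integral_congr_ae (Eventually.of_forall fun s => ?_)
      beta_reduce
      ring
    rw [h3, hF z hz]
    rw [deriv_f] at h1
    have h4 : (d : ℂ) * (z ^ (d - 1) * ((∫ s, pb d c μ s * (1 / (z - s))) - -(d * V d c z))) =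
        d * (mν - 1) := by
      rw [hmν]
      linear_combination h1
    exact mul_left_cancel₀ hdC h4
  -- all moments of the difference but one vanish
  have hui : Integrable fun s => pb d c μ s - μ s := (hp.integrable hd).sub (hbd.integrable hd)
  have hus : ∀ z, z ∉ K d c → pb d c μ z - μ z = 0 := fun z hz => by
    rw [hp.supp z hz, hbd.supp z hz, sub_zero]
  have hR : ∀ s ∈ K d c, ‖s‖ ≤ RR c := fun s hsK => by
    have := K_sub hd c hsK
    rwa [mem_closedBall, dist_zero_right] at this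
  have hmom : ∀ k : ℕ, ∫ s, (pb d c μ s - μ s) * s ^ k = if k = d - 2 then mν - 1 else 0 := by
    refine moments_pow hK (RR_pos c).le hR hui hus ?_
    have h2 : ∀ᶠ n : ℕ in atTop, RR c < (n : ℝ) :=
      (tendsto_natCast_atTop_atTop (R := ℝ)).eventually_gt_atTop _
    filter_upwards [h2] with n hn
    have hnn : ‖(n : ℂ)‖ = n := by simp
    have hnK : (n : ℂ) ∉ K d c := not_mem_of_far hd (by rw [hnn]; exact hn.le)
    have h3 := hkey n hnK
    have h4 : d - 2 + 1 = d - 1 := by omega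
    rw [h4]
    rw [← h3]
    congr 1
    refine integral_congr_ae (Eventually.of_forall fun s => ?_)
    beta_reduce
    rw [mul_one_div]
  have hinv : pb d c μ =ᵐ[volume] μ := by
    have h5 : ∀ᵐ z, (pb d c μ z - μ z) * z ^ (d - 1) = 0 := by
      refine ae_zero hK (compl_connected hd c) hint
        (int_mul hK hui hus (continuous_pow (d - 1))) (fun z hz => by rw [hus z hz, zero_mul])
        fun k => ?_
      have e : ∀ z, (pb d c μ z - μ z) * z ^ (d - 1) * z ^ k =
          (pb d c μ z - μ z) * z ^ (d - 1 + k) := fun z => by rw [pow_add]; ring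
      rw [integral_congr_ae (Eventually.of_forall e), hmom, if_neg (by omega)]
    have h3 : ∀ᵐ z : ℂ, z ≠ 0 := by
      rw [ae_iff]
      simp
    filter_upwards [h5, h3] with z hz hz0
    rcases mul_eq_zero.1 hz with h4 | h4
    · exact sub_eq_zero.1 h4
    · exact absurd h4 (pow_ne_zero _ hz0)
  refine ⟨μ, hbd, hinv, ?_⟩
  have h6 := hmom (d - 2)
  rw [if_pos rfl] at h6
  have h7 : ∫ s, (pb d c μ s - μ s) * s ^ (d - 2) = 0 := by
    have : (fun s => (pb d c μ s - μ s) * s ^ (d - 2)) =ᵐ[volume] fun _ => (0 : ℂ) := by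
      filter_upwards [hinv] with s hs
      rw [hs, sub_self, zero_mul]
    rw [integral_congr_ae this, integral_zero]
  have h8 : mν = 1 := by
    rw [h7] at h6
    exact (sub_eq_zero.1 h6.symm)
  rw [← h8, hmν]
  refine integral_congr_ae ?_
  filter_upwards [hinv] with s hs
  rw [hs]

/-- the extremal value of a stable parameter -/
theorem stable_lam {d : ℕ} (hd : 2 ≤ d) {c : ℂ} {r : ℝ} (hr : 0 < r)
    (hsub : ∀ c' ∈ ball c r, (0 : ℂ) ∈ K d c') (hint : interior (K d c) = ∅) :
    Real.pi * r ≤ d * lam d c := by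
  have hpi := Real.pi_pos
  have hdR : (0 : ℝ) < d := by
    have : 0 < d := by omega
    exact_mod_cast this
  obtain ⟨μ, hb, hinv, hone⟩ := stable hd hr hsub hint
  have h1 : Real.pi * r / d ≤ lam d c := by
    refine le_lam hd fun p => ?_
    have h2 := int_eval hd hb hinv p
    rw [hone, one_mul] at h2
    rw [← h2, div_mul_eq_mul_div, div_le_iff₀ hdR, ← integral_indicator (isCompact_K hd c).measurableSet,
      mul_comm (∫ x, _) (d : ℝ), ← le_div_iff₀' (by positivity), mul_div_right_comm,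
      ← integral_const_mul]
    refine norm_integral_le_of_norm_le ?_ (Eventually.of_forall fun z => ?_)
    · refine Integrable.const_mul ?_ _
      rw [integrable_indicator_iff (isCompact_K hd c).measurableSet]
      exact p.continuous.norm.continuousOn.integrableOn_compact (isCompact_K hd c)
    · rw [norm_mul]
      by_cases hz : z ∈ K d c
      · rw [indicator_of_mem hz]
        exact mul_le_mul_of_nonneg_right (hb.bound z) (norm_nonneg _)
      · rw [indicator_of_notMem hz, hb.supp z hz, norm_zero, zero_mul, mul_zero]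
  rw [div_le_iff₀ hdR] at h1
  linarith

end Pool.Agent.X151.LF
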